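import Pool.Agent.Lib_helper99.MP.Full5

/-!
# Groups of similitudes generated by the conjugates of an element of order three
-/

open Module

namespace Pool.Agent.MPB

/-- The standing assumptions: `b` is symmetric (`ε = 1`) or alternating (`ε = -1`), `L` is a
nonzero Lie algebra of skew operators that is stable under the group `ρ(G)` of similitudes, and the
normal closure of `σ` acts irreducibly. -/
structure CtxE {E V G : Type*} [Field E] [AddCommGroup V] [Module E V] [Group G]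
    (b : LinearMap.BilinForm E V) (ε : E) (L : Submodule E (Module.End E V))
    (ρ : G →* Module.End E V) (σ : G) : Prop where
  eps : ε = 1 ∨ ε = -1
  symm : ∀ x y, b y x = ε * b x y
  nondeg : ∀ x, (∀ y, b x y = 0) → x = 0
  sim : ∀ g, ∃ c : E, ∀ x y, b (ρ g x) (ρ g y) = c * b x y
  skew : ∀ X ∈ L, ∀ x y, b (X x) y = - b x (X y)
  brk : ∀ X ∈ L, ∀ Y ∈ L, X * Y - Y * X ∈ L
  conj : ∀ g, ∀ X ∈ L, ρ g * X * ρ g⁻¹ ∈ L
  ne : ∃ X ∈ L, X ≠ 0
  irr : ∀ U : Submodule E V, (∀ n ∈ Subgroup.normalClosure {σ}, ∀ u ∈ U, ρ n u ∈ U) →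
    U = ⊥ ∨ U = ⊤

variable {E V G : Type*} [Field E] [AddCommGroup V] [Module E V] [Group G]

/-- the invertible map of a group element -/
def eqv (ρ : G →* Module.End E V) (g : G) : V ≃ₗ[E] V :=
  LinearEquiv.ofLinearMap (ρ g) (ρ g⁻¹)
    (by
      have h := map_mul ρ g g⁻¹
      rw [mul_inv_cancel, map_one] at h
      exact h.symm)
    (by
      have h := map_mul ρ g⁻¹ g
      rw [inv_mul_cancel, map_one] at h
      exact h.symm)

theorem eqv_apply (ρ : G →* Module.End E V) (g : G) (v : V) : eqv ρ g v = ρ g v := rfl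

theorem eqv_symm_apply (ρ : G →* Module.End E V) (g : G) (v : V) :
    (eqv ρ g).symm v = ρ g⁻¹ v := rfl

variable {b : LinearMap.BilinForm E V} {ε : E} {L : Submodule E (Module.End E V)}
  {ρ : G →* Module.End E V} {σ : G}

/-- if the fixed space of `s` is large then the multiplier of `s` is `1` -/
theorem CtxE.mult [FiniteDimensional E V] (C : CtxE b ε L ρ σ) {s : Module.End E V}
    (hr : finrank E (LinearMap.range (s - 1)) = 2) (hdim : 5 ≤ finrank E V) {c : E}
    (hc : ∀ x y, b (s x) (s y) = c * b x y) : c = 1 := by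
  by_contra hne
  have hrefl : LinearMap.IsRefl b := fun x y h => by rw [C.symm, h, mul_zero]
  have hnd : b.Nondegenerate := by
    refine ⟨fun x h => C.nondeg x h, fun x h => C.nondeg x fun y => hrefl _ _ (h y)⟩
  set F := LinearMap.ker (s - 1) with hF
  have h1 := LinearMap.finrank_range_add_finrank_ker (s - 1)
  have h2 : F ≤ LinearMap.BilinForm.orthogonal b F := by
    intro u hu v hv
    have hu' : s u = u := by
      have : (s - 1) u = 0 := hu
      rw [LinearMap.sub_apply, Module.End.one_apply, sub_eq_zero] at this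
      exact this
    have hv' : s v = v := by
      have : (s - 1) v = 0 := hv
      rw [LinearMap.sub_apply, Module.End.one_apply, sub_eq_zero] at this
      exact this
    have h3 := hc v u
    rw [hu', hv'] at h3
    have h4 : (c - 1) * b v u = 0 := by linear_combination -h3
    exact (mul_eq_zero.1 h4).resolve_left (sub_ne_zero.2 hne)
  have h3 := LinearMap.BilinForm.finrank_orthogonal hnd F
  have h4 := Submodule.finrank_mono h2
  have h5 := Submodule.finrank_le F
  rw [h3] at h4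
  rw [hr, ← hF] at h1
  omega

theorem CtxE.toCtx [FiniteDimensional E V] (C : CtxE b ε L ρ σ) (h : ρ σ ^ 3 = 1)
    (hr : finrank E (LinearMap.range (ρ σ - 1)) = 2) (hdim : 5 ≤ finrank E V) :
    Ctx b ε L {τ | ∃ g : G, τ = eqv ρ (g * σ * g⁻¹)} := by
  have hcube : ∀ g : G, ∀ v, ρ (g * σ * g⁻¹) (ρ (g * σ * g⁻¹) (ρ (g * σ * g⁻¹) v)) = v := by
    intro g v
    have h1 : ρ (g * σ * g⁻¹) * (ρ (g * σ * g⁻¹) * ρ (g * σ * g⁻¹)) = 1 := by
      rw [← map_mul, ← map_mul]
      have h2 : g * σ * g⁻¹ * (g * σ * g⁻¹ * (g * σ * g⁻¹)) = g * (σ ^ 3) * g⁻¹ := by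
        rw [pow_succ, pow_two]
        group
      rw [h2, map_mul, map_mul, map_pow, h, mul_one, ← map_mul, mul_inv_cancel, map_one]
    exact LinearMap.congr_fun h1 v
  have hinv : ∀ g : G, ρ (g * σ * g⁻¹)⁻¹ = ρ (g * σ * g⁻¹) * ρ (g * σ * g⁻¹) := by
    intro g
    have h1 : ρ (g * σ * g⁻¹) * (ρ (g * σ * g⁻¹) * ρ (g * σ * g⁻¹)) = 1 := by
      ext v
      exact hcube g v
    have h2 : ρ (g * σ * g⁻¹)⁻¹ * ρ (g * σ * g⁻¹) = 1 := by
      rw [← map_mul, inv_mul_cancel, map_one]
    calc ρ (g * σ * g⁻¹)⁻¹ = ρ (g * σ * g⁻¹)⁻¹ *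
          (ρ (g * σ * g⁻¹) * (ρ (g * σ * g⁻¹) * ρ (g * σ * g⁻¹))) := by rw [h1, mul_one]
      _ = _ := by rw [← mul_assoc, h2, one_mul]
  refine ⟨C.eps, C.symm, C.nondeg, C.brk, ?_, ?_, ?_, ?_, ?_, ?_, ?_⟩
  · intro X hX u v
    rw [C.skew X hX]
    ring
  · intro h0
    obtain ⟨X, hX, hX0⟩ := C.ne
    rw [h0] at hX
    exact hX0 hX
  · rintro τ ⟨g, rfl⟩ X hX
    have h1 : (eqv ρ (g * σ * g⁻¹)).conj X = ρ (g * σ * g⁻¹) * X * ρ (g * σ * g⁻¹)⁻¹ := by
      ext v
      rw [LinearEquiv.conj_apply_apply]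
      rfl
    rw [h1]
    exact C.conj _ X hX
  · rintro τ ⟨g, rfl⟩ u v
    rw [eqv_apply, eqv_apply]
    obtain ⟨c, hc⟩ := C.sim σ
    have hc1 : c = 1 := C.mult hr hdim hc
    obtain ⟨d, hd⟩ := C.sim g
    obtain ⟨d', hd'⟩ := C.sim g⁻¹
    have h1 : ∀ x y, b (ρ (g * σ * g⁻¹) x) (ρ (g * σ * g⁻¹) y) = d * (c * (d' * b x y)) := by
      intro x y
      rw [map_mul, map_mul, Module.End.mul_apply, Module.End.mul_apply, Module.End.mul_apply,
        Module.End.mul_apply, hd, hc, hd']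
    have h2 : ∀ x y, b x y = d * (d' * b x y) := by
      intro x y
      rw [← hd', ← hd, ← Module.End.mul_apply, ← Module.End.mul_apply, ← map_mul,
        mul_inv_cancel, map_one]
      rfl
    rw [h1, hc1, one_mul, ← h2]
  · rintro τ ⟨g, rfl⟩ v
    exact hcube g v
  · rintro τ ⟨g, rfl⟩
    have h1 : LinearMap.range (((eqv ρ (g * σ * g⁻¹) : V ≃ₗ[E] V) : V →ₗ[E] V) - LinearMap.id) =
        (LinearMap.range (ρ σ - 1)).map ((eqv ρ g : V ≃ₗ[E] V) : V →ₗ[E] V) := by
      ext x
      constructor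
      · rintro ⟨v, rfl⟩
        refine ⟨(ρ σ - 1) (ρ g⁻¹ v), ⟨_, rfl⟩, ?_⟩
        have h2 : ρ g (ρ g⁻¹ v) = v := by
          rw [← Module.End.mul_apply, ← map_mul, mul_inv_cancel, map_one]
          rfl
        rw [LinearEquiv.coe_coe, eqv_apply, LinearMap.sub_apply, Module.End.one_apply, map_sub,
          h2, LinearMap.sub_apply, LinearMap.id_apply, LinearEquiv.coe_coe, eqv_apply, map_mul,
          map_mul]
        rfl
      · rintro ⟨_, ⟨v, rfl⟩, rfl⟩
        refine ⟨ρ g v, ?_⟩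
        have h2 : ρ g⁻¹ (ρ g v) = v := by
          rw [← Module.End.mul_apply, ← map_mul, inv_mul_cancel, map_one]
          rfl
        rw [LinearEquiv.coe_coe, eqv_apply, LinearMap.sub_apply, LinearMap.sub_apply,
          Module.End.one_apply, map_sub, LinearMap.id_apply, LinearEquiv.coe_coe, eqv_apply,
          map_mul, map_mul, Module.End.mul_apply, Module.End.mul_apply, h2]
    rw [h1, LinearEquiv.finrank_map_eq, hr]
  · intro U hU
    apply C.irr
    intro n hn
    have h1 : ∀ u ∈ U, ρ n u ∈ U ∧ ρ n⁻¹ u ∈ U := by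
      rw [Subgroup.normalClosure] at hn
      induction hn using Subgroup.closure_induction with
      | mem x hx =>
        rw [Group.mem_conjugatesOfSet_iff] at hx
        obtain ⟨a, ha, hax⟩ := hx
        rw [Set.mem_singleton_iff] at ha
        subst ha
        obtain ⟨g, hg⟩ := isConj_iff.1 hax
        subst hg
        intro u hu
        have h2 : ∀ u ∈ U, ρ (g * a * g⁻¹) u ∈ U := hU _ ⟨g, rfl⟩
        refine ⟨h2 u hu, ?_⟩
        rw [hinv g]
        exact h2 _ (h2 u hu)
      | one =>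
        intro u hu
        rw [inv_one, map_one]
        exact ⟨hu, hu⟩
      | mul x y _ _ hx hy =>
        intro u hu
        rw [mul_inv_rev, map_mul, map_mul]
        exact ⟨(hx _ (hy u hu).1).1, (hy _ (hx u hu).2).2⟩
      | inv x _ hx =>
        intro u hu
        rw [inv_inv]
        exact (hx u hu).symm
    exact fun u hu => (h1 u hu).1

variable [CharZero E] [IsAlgClosed E] [FiniteDimensional E V]

/-- `L` is irreducible. -/
theorem mp_irr (C : CtxE b ε L ρ σ) (h : ρ σ ^ 3 = 1)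
    (hr : finrank E (LinearMap.range (ρ σ - 1)) = 2) (hdim : 5 ≤ finrank E V)
    (U : Submodule E V) (hU : ∀ X ∈ L, ∀ u ∈ U, X u ∈ U) : U = ⊥ ∨ U = ⊤ :=
  (C.toCtx h hr hdim).irreducible hdim U hU

/-- `L` contains all skew operators. -/
theorem mp_skew (C : CtxE b ε L ρ σ) (h : ρ σ ^ 3 = 1)
    (hr : finrank E (LinearMap.range (ρ σ - 1)) = 2) (hdim : 5 ≤ finrank E V)
    (X : Module.End E V) (hX : ∀ x y, b (X x) y = - b x (X y)) : X ∈ L :=
  (C.toCtx h hr hdim).full hdim fun u v => by rw [hX]; ring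

/-- `L` contains all maps `v ↦ b(y,v) x - ε b(x,v) y`. -/
theorem mp_full (C : CtxE b ε L ρ σ) (h : ρ σ ^ 3 = 1)
    (hr : finrank E (LinearMap.range (ρ σ - 1)) = 2) (hdim : 5 ≤ finrank E V) (x y : V) :
    (b y).smulRight x - ε • (b x).smulRight y ∈ L := by
  apply (C.toCtx h hr hdim).full hdim
  exact fun u v => (C.toCtx h hr hdim).W_skew x y u v

end Pool.Agent.MPB
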