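import Pool.Agent.Lib_helper99.MP.Wd

/-!
# The Lie algebra is the algebra of all skew maps: the spaces `P` and `Q`
-/

open Module

namespace Pool.Agent.MPB

variable {E V : Type*} [Field E] [AddCommGroup V] [Module E V]
  {b : V →ₗ[E] V →ₗ[E] E} {ε : E} {L : Submodule E (Module.End E V)}
  {T : Set (V ≃ₗ[E] V)} {τ : V ≃ₗ[E] V} {z : E} {e f : V}

/-- the projection onto the orthogonal complement of the plane `⟨e, f⟩` -/
def pr (b : V →ₗ[E] V →ₗ[E] E) (e f : V) : V →ₗ[E] V :=
  LinearMap.id - (b.flip f).smulRight e - (b e).smulRight f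

theorem pr_apply (v : V) : pr b e f v = v - b v f • e - b e v • f := by
  simp [pr]

theorem pr_dec (v : V) : v = pr b e f v + b v f • e + b e v • f := by
  rw [pr_apply]; abel

/-- orthogonal to `e` and `f` -/
def Pp (b : V →ₗ[E] V →ₗ[E] E) (e f u : V) : Prop := b u f = 0 ∧ b e u = 0

theorem Tri.pp (ht : Tri b τ z e f) (v : V) : Pp b e f (pr b e f v) := by
  constructor
  · rw [pr_apply]
    simp only [map_sub, map_smul, LinearMap.sub_apply, LinearMap.smul_apply, smul_eq_mul, ht.ef,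
      ht.ff]
    ring
  · rw [pr_apply]
    simp only [map_sub, map_smul, smul_eq_mul, ht.ef, ht.ee]
    ring

theorem pr_eq {u : V} (h : Pp b e f u) : pr b e f u = u := by
  rw [pr_apply, h.1, h.2]
  simp

theorem Tri.pr_e (ht : Tri b τ z e f) : pr b e f e = 0 := by
  rw [pr_apply, ht.ef, ht.ee]
  simp

theorem Tri.pr_f (ht : Tri b τ z e f) : pr b e f f = 0 := by
  rw [pr_apply, ht.ef, ht.ff]
  simp

theorem Ctx.pp_swap (C : Ctx b ε L T) {u : V} : Pp b f (ε • e) u ↔ Pp b e f u := by
  have h0 := C.eps_ne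
  unfold Pp
  rw [map_smul, smul_eq_mul, C.symm e u, C.symm u f]
  constructor
  · rintro ⟨h1, h2⟩
    refine ⟨(mul_eq_zero.1 h2).resolve_left h0, ?_⟩
    exact (mul_eq_zero.1 ((mul_eq_zero.1 h1).resolve_left h0)).resolve_left h0
  · rintro ⟨h1, h2⟩
    rw [h1, h2]
    simp

theorem Ctx.pr_swap (C : Ctx b ε L T) (v : V) : pr b f (ε • e) v = pr b e f v := by
  have h2 := C.eps2
  rw [pr_apply, pr_apply, map_smul, smul_eq_mul, C.symm e v, C.symm v f, ← mul_assoc, h2, one_mul,
    smul_smul]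
  have : ε * b v f * ε = b v f := by linear_combination b v f * h2
  rw [this]
  abel

/-- the vectors `u` orthogonal to `e`, `f` with `W e u + c W f f ∈ L` for some `c` -/
def PP (b : V →ₗ[E] V →ₗ[E] E) (ε : E) (L : Submodule E (Module.End E V)) (e f : V) :
    Submodule E V where
  carrier := {u | Pp b e f u ∧ ∃ c : E, W b ε e u + c • W b ε f f ∈ L}
  add_mem' := by
    rintro x y ⟨⟨h1, h2⟩, c, hc⟩ ⟨⟨h3, h4⟩, d, hd⟩
    refine ⟨⟨by simp [h1, h3], by simp [h2, h4]⟩, c + d, ?_⟩
    have h5 := L.add_mem hc hd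
    rw [W_add_right]
    have h6 : W b ε e x + W b ε e y + (c + d) • W b ε f f =
        W b ε e x + c • W b ε f f + (W b ε e y + d • W b ε f f) := by module
    rw [h6]
    exact h5
  zero_mem' := ⟨⟨by simp, by simp⟩, 0, by simp [W_zero_right]⟩
  smul_mem' := by
    rintro a x ⟨⟨h1, h2⟩, c, hc⟩
    refine ⟨⟨by simp [h1], by simp [h2]⟩, a * c, ?_⟩
    have h5 := L.smul_mem a hc
    rw [W_smul_right]
    have h6 : a • W b ε e x + (a * c) • W b ε f f = a • (W b ε e x + c • W b ε f f) := by module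
    rw [h6]
    exact h5

theorem mem_PP {u : V} : u ∈ PP b ε L e f ↔
    Pp b e f u ∧ ∃ c : E, W b ε e u + c • W b ε f f ∈ L := Iff.rfl

theorem W_ff (f v : V) : W b ε f f v = ((1 - ε) * b f v) • f := by
  rw [W_apply]
  module

theorem Tri.W_e_f (ht : Tri b τ z e f) {u : V} (hu : Pp b e f u) : W b ε e u f = (-ε) • u := by
  rw [W_apply, hu.1, ht.ef]
  module

theorem Ctx.W_e_e (C : Ctx b ε L T) (ht : Tri b τ z e f) {u : V} (hu : Pp b e f u) :
    W b ε e u e = 0 := by
  rw [W_apply, C.symm e u, hu.2, ht.ee]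
  simp

theorem W_e_w {u w : V} (hw : Pp b e f w) : W b ε e u w = b u w • e := by
  rw [W_apply, hw.2]
  simp

theorem Ctx.f_w (C : Ctx b ε L T) {w : V} (hw : Pp b e f w) : b f w = 0 :=
  C.symm0.1 hw.1

theorem Ctx.w_e (C : Ctx b ε L T) {w : V} (hw : Pp b e f w) : b w e = 0 :=
  C.symm0.1 hw.2

theorem Tri.pr_t (ht : Tri b τ z e f) (v : V) : pr b e f (τ v) = pr b e f v := by
  rw [ht.form, map_add, map_add, map_smul, map_smul, ht.pr_e, ht.pr_f]
  simp

section comp

variable [CharZero E]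

theorem Ctx.comp (C : Ctx b ε L T) (hτ : τ ∈ T) (ht : Tri b τ z e f) {X : Module.End E V}
    (hX : X ∈ L) :
    (-ε) • W b ε e (pr b e f (X f)) - (b e (X e) / 2) • W b ε f f ∈ L := by
  have hz3 := z3 ht.hz
  have hz := ht.hz
  set Y : Module.End E V := X + (z ^ 2) • τ.conj X + z • τ.conj (τ.conj X) with hY
  have hYL : Y ∈ L := L.add_mem (L.add_mem hX (L.smul_mem _ (C.nrm τ hτ X hX)))
    (L.smul_mem _ (C.nrm τ hτ _ (C.nrm τ hτ X hX)))
  have hYv : ∀ v, Y v = X v + (z ^ 2) • τ (X (τ (τ v))) + z • τ (τ (X (τ v))) := by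
    intro v
    rw [hY]
    simp only [LinearMap.add_apply, LinearMap.smul_apply, LinearEquiv.conj_apply_apply]
    rw [C.symm_apply hτ v, C.symm_apply hτ (τ (τ v)), C.cube τ hτ]
  have hc : ∀ v, τ (Y v) = z • Y (τ v) := by
    intro v
    rw [hYv, hYv]
    simp only [map_add, map_smul, C.cube τ hτ, smul_add, smul_smul]
    have h1 : z * z ^ 2 = 1 := by linear_combination hz3
    rw [h1, one_smul]
    have h2 : z * z = z ^ 2 := by ring
    rw [h2]
    abel
  have h1 : Y e = (b e (Y e)) • f := by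
    apply ht.eig2 C
    rw [hc, ht.te, map_smul, smul_smul]
    congr 1
    ring
  have hYf : τ (Y f) = Y f := by
    rw [hc, ht.tf, map_smul, smul_smul]
    have h2 : z * z ^ 2 = 1 := by linear_combination hz3
    rw [h2, one_smul]
  have h2 : Pp b e f (Y f) := ht.fix hYf
  have h3 : ∀ w, Pp b e f w → Y w = (- b w (Y f)) • e := by
    intro w hw
    have h4 : Y w = b (Y w) f • e := by
      apply ht.eig
      rw [hc, ht.fixed hw.1 hw.2]
    rw [h4]
    congr 1
    linear_combination C.skew Y hYL w f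
  have h4 : Y f = (3 : E) • pr b e f (X f) := by
    rw [← pr_eq h2, hYv, map_add, map_add, map_smul, map_smul, ht.pr_t, ht.pr_t, ht.pr_t, ht.tf,
      map_smul, ht.tf, map_smul, map_smul, map_smul, map_smul]
    simp only [smul_smul]
    have e1 : z ^ 2 * (z ^ 2 * z ^ 2) = 1 := by linear_combination (z ^ 3 + 1) * hz3
    have e2 : z * z ^ 2 = 1 := by linear_combination hz3
    rw [e1, e2]
    module
  have h5 : b e (Y e) = 3 * b e (X e) := by
    have e0 : ∀ v, b e (τ v) = z ^ 2 * b e v := by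
      intro v
      have := C.iso τ hτ e v
      rw [ht.te, map_smul, LinearMap.smul_apply, smul_eq_mul] at this
      linear_combination z ^ 2 * this - b e (τ v) * hz3
    rw [hYv, map_add, map_add, map_smul, map_smul, e0, e0, e0, ht.te, map_smul, ht.te, map_smul,
      map_smul, map_smul, map_smul]
    simp only [smul_eq_mul]
    linear_combination (b e (X e)) * (z ^ 3 + 1) * hz3 + (b e (X e)) * (z ^ 3 + 1) * hz3
  have h20 := C.eps2
  set u := pr b e f (X f) with hu
  have hup : Pp b e f u := ht.pp _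
  set R := (-ε) • W b ε e u - (b e (X e) / 2) • W b ε f f with hR
  have r1 : (3 : E) • R e = Y e := by
    rw [h1, h5, hR, LinearMap.sub_apply, LinearMap.smul_apply, LinearMap.smul_apply, W_ff,
      C.W_e_e ht hup, C.symm e f, ht.ef, smul_zero, zero_sub, smul_neg, smul_smul, smul_smul,
      ← neg_smul]
    rcases C.eps with h | h
    · have h6 : b e (X e) = 0 := by
        have h7 := C.skew X hX e e
        rw [C.symm e (X e), h] at h7
        linear_combination h7 / 2
      rw [h6]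
      simp
    · rw [h]
      congr 1
      ring
  have r2 : (3 : E) • R f = Y f := by
    rw [h4, hR, LinearMap.sub_apply, LinearMap.smul_apply, LinearMap.smul_apply, W_ff,
      ht.W_e_f hup, ht.ff]
    have h6 : (3 : E) • ((-ε) • (-ε) • u - (b e (X e) / 2) • ((1 - ε) * 0) • f) =
        (ε * ε) • (3 : E) • u := by module
    rw [h6, h20, one_smul]
  have r3 : ∀ w, Pp b e f w → (3 : E) • R w = Y w := by
    intro w hw
    rw [h3 w hw, h4, hR, LinearMap.sub_apply, LinearMap.smul_apply, LinearMap.smul_apply, W_ff,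
      W_e_w hw, C.f_w hw, map_smul, smul_eq_mul, C.symm w u]
    have h6 : (3 : E) • ((-ε) • (ε * b w u) • e - (b e (X e) / 2) • ((1 - ε) * 0) • f) =
        (ε * ε) • (-(3 * b w u)) • e := by module
    rw [h6, h20, one_smul]
  have h6 : R = (3 : E)⁻¹ • Y := by
    ext v
    rw [pr_dec (b := b) (e := e) (f := f) v, LinearMap.smul_apply]
    simp only [map_add, map_smul]
    rw [← r1, ← r2, ← r3 _ (ht.pp v)]
    simp only [smul_add, smul_smul]
    have h7 : (3 : E)⁻¹ * 3 = 1 := inv_mul_cancel₀ (by norm_num)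
    have h8 : (3 : E)⁻¹ * (b v f * 3) = b v f := by
      rw [mul_comm (b v f), ← mul_assoc, h7, one_mul]
    have h9 : (3 : E)⁻¹ * (b e v * 3) = b e v := by
      rw [mul_comm (b e v), ← mul_assoc, h7, one_mul]
    rw [h7, h8, h9, one_smul]
  rw [h6]
  exact L.smul_mem _ hYL

/-- the component of `X u` -/
theorem Ctx.stab (C : Ctx b ε L T) (hτ : τ ∈ T) (ht : Tri b τ z e f) {X : Module.End E V}
    (hX : X ∈ L) {u : V} (hu : u ∈ PP b ε L e f) : pr b e f (X u) ∈ PP b ε L e f := by
  obtain ⟨hup, c, hc⟩ := hu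
  set Y := W b ε e u + c • W b ε f f with hY
  have hZ := C.lie X hX Y hc
  have h1 := C.comp hτ ht hZ
  have hYf : Y f = (-ε) • u := by
    rw [hY, LinearMap.add_apply, LinearMap.smul_apply, W_ff, ht.ff, ht.W_e_f hup]
    simp
  have hprY : pr b e f (Y (X f)) = -(ε * b e (X f)) • u := by
    rw [hY, LinearMap.add_apply, LinearMap.smul_apply, W_ff, W_apply]
    simp only [map_add, map_sub, map_smul, ht.pr_e, ht.pr_f, pr_eq hup]
    module
  have h2 : pr b e f ((X * Y - Y * X) f) =
      (-ε) • pr b e f (X u) + (ε * b e (X f)) • u := by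
    rw [LinearMap.sub_apply, Module.End.mul_apply, Module.End.mul_apply, hYf, map_sub, hprY,
      map_smul, map_smul]
    module
  rw [h2] at h1
  have h20 := C.eps2
  refine ⟨ht.pp _, b e (X f) * c - b e ((X * Y - Y * X) e) / 2, ?_⟩
  have h3 := L.add_mem h1 (L.smul_mem (b e (X f)) hc)
  rw [W_add_right, W_smul_right, W_smul_right] at h3
  have h4 : (-ε) • ((-ε) • W b ε e (pr b e f (X u)) + (ε * b e (X f)) • W b ε e u) -
      (b e ((X * Y - Y * X) e) / 2) • W b ε f f +
        b e (X f) • (W b ε e u + c • W b ε f f) =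
      (ε * ε) • W b ε e (pr b e f (X u)) + (b e (X f) - (ε * ε) * b e (X f)) • W b ε e u +
      (b e (X f) * c - b e ((X * Y - Y * X) e) / 2) • W b ε f f := by module
  rw [h4, h20, one_smul, one_mul, sub_self, zero_smul, add_zero] at h3
  exact h3

theorem Ctx.pr_Xf (C : Ctx b ε L T) (hτ : τ ∈ T) (ht : Tri b τ z e f) {X : Module.End E V}
    (hX : X ∈ L) : pr b e f (X f) ∈ PP b ε L e f := by
  have h20 := C.eps2
  refine ⟨ht.pp _, ε * (b e (X e) / 2), ?_⟩
  have h1 := L.smul_mem (-ε) (C.comp hτ ht hX)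
  have h2 : (-ε) • ((-ε) • W b ε e (pr b e f (X f)) - (b e (X e) / 2) • W b ε f f) =
      (ε * ε) • W b ε e (pr b e f (X f)) + (ε * (b e (X e) / 2)) • W b ε f f := by module
  rw [h2, h20, one_smul] at h1
  exact h1

end comp

end Pool.Agent.MPB
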