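import Pool.Agent.Lib_helper99.MP.Full

/-!
# The Lie algebra is the algebra of all skew maps: the two lemmas
-/

open Module

namespace Pool.Agent.MPB

variable {E V : Type*} [Field E] [AddCommGroup V] [Module E V]
  {b : V →ₗ[E] V →ₗ[E] E} {ε : E} {L : Submodule E (Module.End E V)}
  {T : Set (V ≃ₗ[E] V)} {τ : V ≃ₗ[E] V} {z : E} {e f : V}

/-- `P + Q` is the orthogonal complement of the plane -/
theorem Ctx.sum_PQ [CharZero E] [IsAlgClosed E] [FiniteDimensional E V] (C : Ctx b ε L T)
    (hdim : 5 ≤ finrank E V) (hτ : τ ∈ T) (ht : Tri b τ z e f) {w : V} (hw : Pp b e f w) :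
    ∃ p ∈ PP b ε L e f, ∃ q ∈ PP b ε L f (ε • e), w = p + q := by
  have ht' := ht.swap C
  have h20 := C.eps2
  set P := PP b ε L e f with hP
  set Q := PP b ε L f (ε • e) with hQ
  set M := Submodule.span E {e, f} with hM
  have heM : e ∈ M := Submodule.subset_span (by simp)
  have hfM : f ∈ M := Submodule.subset_span (by simp)
  have hdec : ∀ v, pr b e f v ∈ P ⊔ Q → v ∈ M ⊔ (P ⊔ Q) := by
    intro v hv
    rw [pr_dec (b := b) (e := e) (f := f) v, add_assoc, add_comm]
    exact Submodule.add_mem_sup (M.add_mem (M.smul_mem _ heM) (M.smul_mem _ hfM)) hv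
  have hst : LS L (M ⊔ (P ⊔ Q)) := by
    intro X hX u hu
    obtain ⟨m, hm, pq, hpq, rfl⟩ := Submodule.mem_sup.1 hu
    obtain ⟨p, hp, q, hq, rfl⟩ := Submodule.mem_sup.1 hpq
    rw [map_add, map_add]
    apply Submodule.add_mem
    · obtain ⟨α, β, rfl⟩ := Submodule.mem_span_pair.1 hm
      rw [map_add, map_smul, map_smul]
      apply Submodule.add_mem
      · apply Submodule.smul_mem
        apply hdec
        apply Submodule.mem_sup_right
        have h1 := C.pr_Xf hτ ht' hX
        rw [C.pr_swap, map_smul, map_smul] at h1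
        have h2 := Q.smul_mem ε h1
        rw [smul_smul, h20, one_smul] at h2
        exact h2
      · apply Submodule.smul_mem
        apply hdec
        apply Submodule.mem_sup_left
        exact C.pr_Xf hτ ht hX
    · apply Submodule.add_mem
      · apply hdec
        exact Submodule.mem_sup_left (C.stab hτ ht hX hp)
      · apply hdec
        have h1 := C.stab hτ ht' hX hq
        rw [C.pr_swap] at h1
        exact Submodule.mem_sup_right h1
  rcases C.irreducible hdim _ hst with h | h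
  · exfalso
    apply ht.e_ne
    have : e ∈ M ⊔ (P ⊔ Q) := Submodule.mem_sup_left heM
    rw [h] at this
    exact this
  · have : w ∈ M ⊔ (P ⊔ Q) := by rw [h]; trivial
    obtain ⟨m, hm, pq, hpq, h1⟩ := Submodule.mem_sup.1 this
    obtain ⟨p, hp, q, hq, rfl⟩ := Submodule.mem_sup.1 hpq
    obtain ⟨α, β, rfl⟩ := Submodule.mem_span_pair.1 hm
    refine ⟨p, hp, q, hq, ?_⟩
    have hq' : Pp b e f q := C.pp_swap.1 hq.1
    rw [← pr_eq hw, ← h1, map_add, map_add, map_add, map_smul, map_smul, ht.pr_e, ht.pr_f,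
      pr_eq hp.1, pr_eq hq']
    simp

/-- **Lemma A** -/
theorem Ctx.lemA [CharZero E] (C : Ctx b ε L T) (hτ : τ ∈ T) (ht : Tri b τ z e f) {u u' : V}
    (hu : u ∈ PP b ε L e f) (hu' : u' ∈ PP b ε L e f) (h : b u u' ≠ 0) {q : V}
    (hq : q ∈ PP b ε L f (ε • e)) : q ∈ PP b ε L e f := by
  obtain ⟨c, hc⟩ := hu.2
  obtain ⟨d, hd⟩ := hq.2
  have hup := hu.1
  have hup' := hu'.1
  have hqp : Pp b e f q := C.pp_swap.1 hq.1
  have hZ := C.lie _ hc _ hd
  have h1 := C.stab hτ ht hZ hu'
  have h20 := C.eps2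
  have e1 : (W b ε f q + d • W b ε (ε • e) (ε • e)) u' = b q u' • f := by
    rw [LinearMap.add_apply, LinearMap.smul_apply, W_ff, W_apply, C.f_w hup', map_smul,
      LinearMap.smul_apply, hup'.2]
    simp
  have e2 : (W b ε e u + c • W b ε f f) u' = b u u' • e := by
    rw [LinearMap.add_apply, LinearMap.smul_apply, W_ff, W_e_w hup', C.f_w hup']
    simp
  have e3 : (W b ε e u + c • W b ε f f) f = (-ε) • u := by
    rw [LinearMap.add_apply, LinearMap.smul_apply, W_ff, ht.ff, ht.W_e_f hup]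
    simp
  have e4 : (W b ε f q + d • W b ε (ε • e) (ε • e)) e = -q := by
    rw [LinearMap.add_apply, LinearMap.smul_apply, W_ff, W_apply, C.w_e hqp, map_smul,
      LinearMap.smul_apply, ht.ee, C.symm e f, ht.ef, mul_one, h20]
    simp
  rw [LinearMap.sub_apply, Module.End.mul_apply, Module.End.mul_apply, e1, e2, map_smul, map_smul,
    e3, e4] at h1
  have e5 : b q u' • (-ε) • u - b u u' • (-q) = (-(ε * b q u')) • u + b u u' • q := by module
  rw [e5, map_add, map_smul, map_smul, pr_eq hup, pr_eq hqp] at h1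
  have h2 := (PP b ε L e f).sub_mem h1 ((PP b ε L e f).smul_mem (-(ε * b q u')) hu)
  rw [add_sub_cancel_left] at h2
  have h3 := (PP b ε L e f).smul_mem (b u u')⁻¹ h2
  rw [smul_smul, inv_mul_cancel₀ h, one_smul] at h3
  exact h3

/-- **Lemma B** -/
theorem Ctx.lemB [CharZero E] [IsAlgClosed E] [FiniteDimensional E V] (C : Ctx b ε L T)
    (hdim : 5 ≤ finrank E V) (hτ : τ ∈ T) (ht : Tri b τ z e f)
    (h0 : ∀ X ∈ L, b e (X e) = 0)
    (hQ : ∀ u ∈ PP b ε L f (ε • e), ∀ v ∈ PP b ε L f (ε • e), b u v = 0) : False := by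
  have ht' := ht.swap C
  have h20 := C.eps2
  set Q := PP b ε L f (ε • e) with hQ'
  set M := Submodule.span E {e} with hM
  have heM : e ∈ M := Submodule.subset_span (by simp)
  have hXe : ∀ X ∈ L, pr b e f (X e) ∈ Q := by
    intro X hX
    have h1 := C.pr_Xf hτ ht' hX
    rw [C.pr_swap, map_smul, map_smul] at h1
    have h2 := Q.smul_mem ε h1
    rw [smul_smul, h20, one_smul] at h2
    exact h2
  have hst : LS L (M ⊔ Q) := by
    intro X hX u hu
    obtain ⟨m, hm, q, hq, rfl⟩ := Submodule.mem_sup.1 hu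
    rw [map_add]
    apply Submodule.add_mem
    · obtain ⟨α, rfl⟩ := Submodule.mem_span_singleton.1 hm
      rw [map_smul]
      apply Submodule.smul_mem
      rw [pr_dec (b := b) (e := e) (f := f) (X e), h0 X hX, zero_smul, add_zero, add_comm]
      exact Submodule.add_mem_sup (M.smul_mem _ heM) (hXe X hX)
    · have hqp : Pp b e f q := C.pp_swap.1 hq.1
      have h1 : b e (X q) = 0 := by
        have h2 := C.skew X hX e q
        rw [pr_dec (b := b) (e := e) (f := f) (X e)] at h2
        simp only [map_add, map_smul, LinearMap.add_apply, LinearMap.smul_apply, smul_eq_mul] at h2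
        rw [hQ _ (hXe X hX) q hq, hqp.2, C.f_w hqp] at h2
        linear_combination h2
      rw [pr_dec (b := b) (e := e) (f := f) (X q), h1, zero_smul, add_zero, add_comm]
      have h3 := C.stab hτ ht' hX hq
      rw [C.pr_swap] at h3
      exact Submodule.add_mem_sup (M.smul_mem _ heM) h3
  rcases C.irreducible hdim _ hst with h | h
  · exfalso
    apply ht.e_ne
    have : e ∈ M ⊔ Q := Submodule.mem_sup_left heM
    rw [h] at this
    exact this
  · have : f ∈ M ⊔ Q := by rw [h]; trivial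
    obtain ⟨m, hm, q, hq, h1⟩ := Submodule.mem_sup.1 this
    obtain ⟨α, rfl⟩ := Submodule.mem_span_singleton.1 hm
    have hqp : Pp b e f q := C.pp_swap.1 hq.1
    have h2 := ht.ef
    rw [← h1, map_add, map_smul, ht.ee, hqp.2] at h2
    simp at h2

/-- all `W x y` are in `L` if this holds for a basis -/
theorem Ctx.gen (C : Ctx b ε L T) (ee : b e e = 0) (ff : b f f = 0) (ef : b e f = 1)
    (h1 : W b ε e e ∈ L) (h2 : W b ε f f ∈ L) (h3 : W b ε e f ∈ L)
    (h4 : ∀ w, Pp b e f w → W b ε e w ∈ L) (h5 : ∀ w, Pp b e f w → W b ε f w ∈ L)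
    (h6 : ∀ w w', Pp b e f w → Pp b e f w' → W b ε w w' ∈ L) (x y : V) : W b ε x y ∈ L := by
  have pp : ∀ v, Pp b e f (pr b e f v) := by
    intro v
    constructor
    · rw [pr_apply]
      simp only [map_sub, map_smul, LinearMap.sub_apply, LinearMap.smul_apply, smul_eq_mul, ef,
        ff]
      ring
    · rw [pr_apply]
      simp only [map_sub, map_smul, smul_eq_mul, ef, ee]
      ring
  have hs : ∀ x y, W b ε x y ∈ L → W b ε y x ∈ L := by
    intro x y h
    rw [C.W_swap]
    exact L.smul_mem _ h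
  rw [pr_dec (b := b) (e := e) (f := f) x, pr_dec (b := b) (e := e) (f := f) y]
  simp only [W_add_left, W_add_right, W_smul_left, W_smul_right]
  have k1 := h6 _ _ (pp x) (pp y)
  have k2 := h4 _ (pp y)
  have k3 := h5 _ (pp y)
  have k4 := hs _ _ (h4 _ (pp x))
  have k5 := hs _ _ (h5 _ (pp x))
  have k6 := hs _ _ h3
  refine L.add_mem (L.add_mem ?_ ?_) ?_
  · exact L.add_mem (L.add_mem k1 (L.smul_mem _ k2)) (L.smul_mem _ k3)
  · exact L.smul_mem _ (L.add_mem (L.add_mem k4 (L.smul_mem _ h1)) (L.smul_mem _ k6))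
  · exact L.smul_mem _ (L.add_mem (L.add_mem k5 (L.smul_mem _ h3)) (L.smul_mem _ h2))

end Pool.Agent.MPB
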