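import Pool.Agent.Lib_helper99.MP.Full2

/-!
# The Lie algebra is the algebra of all skew maps: the symmetric case
-/

open Module

namespace Pool.Agent.MPB

variable {E V : Type*} [Field E] [AddCommGroup V] [Module E V]
  {b : V →ₗ[E] V →ₗ[E] E} {ε : E} {L : Submodule E (Module.End E V)}
  {T : Set (V ≃ₗ[E] V)} {τ : V ≃ₗ[E] V} {z : E} {e f : V}

theorem Ctx.PP_swap2 (C : Ctx b ε L T) {u : V} :
    u ∈ PP b ε L (ε • e) (ε • f) ↔ u ∈ PP b ε L e f := by
  have h0 := C.eps_ne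
  have h20 := C.eps2
  rw [mem_PP, mem_PP]
  have h1 : Pp b (ε • e) (ε • f) u ↔ Pp b e f u := by
    unfold Pp
    simp [h0]
  rw [h1]
  constructor
  · rintro ⟨hp, c, hc⟩
    refine ⟨hp, ε * c, ?_⟩
    have h2 := L.smul_mem ε hc
    simp only [W_smul_left, W_smul_right] at h2
    have h3 : ε • (ε • W b ε e u + c • ε • ε • W b ε f f) =
        (ε * ε) • W b ε e u + ((ε * ε) * (ε * c)) • W b ε f f := by module
    rw [h3, h20, one_smul, one_mul] at h2
    exact h2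
  · rintro ⟨hp, c, hc⟩
    refine ⟨hp, ε * c, ?_⟩
    have h2 := L.smul_mem ε hc
    simp only [W_smul_left, W_smul_right]
    have h3 : ε • W b ε e u + (ε * c) • ε • ε • W b ε f f =
        ε • W b ε e u + ((ε * ε) * (ε * c)) • W b ε f f := by module
    rw [h3, h20, one_mul]
    have h4 : ε • (W b ε e u + c • W b ε f f) =
      ε • W b ε e u + (ε * c) • W b ε f f := by module
    rw [h4] at h2
    exact h2

theorem Ctx.lemA' [CharZero E] (C : Ctx b ε L T) (hτ : τ ∈ T) (ht : Tri b τ z e f) {u u' : V}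
    (hu : u ∈ PP b ε L f (ε • e)) (hu' : u' ∈ PP b ε L f (ε • e)) (h : b u u' ≠ 0) {p : V}
    (hp : p ∈ PP b ε L e f) : p ∈ PP b ε L f (ε • e) :=
  C.lemA hτ (ht.swap C) hu hu' h (C.PP_swap2.2 hp)

theorem Ctx.lemB' [CharZero E] [IsAlgClosed E] [FiniteDimensional E V] (C : Ctx b ε L T)
    (hdim : 5 ≤ finrank E V) (hτ : τ ∈ T) (ht : Tri b τ z e f)
    (h0 : ∀ X ∈ L, b f (X f) = 0)
    (hP : ∀ u ∈ PP b ε L e f, ∀ v ∈ PP b ε L e f, b u v = 0) : False :=
  C.lemB hdim hτ (ht.swap C) h0 fun u hu v hv => hP u (C.PP_swap2.1 hu) v (C.PP_swap2.1 hv)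

theorem Ctx.comm_ef (C : Ctx b ε L T) (ht : Tri b τ z e f) {w w' : V} (hw : Pp b e f w)
    (hw' : Pp b e f w') :
    W b ε e w * W b ε f w' - W b ε f w' * W b ε e w =
      (-ε) • W b ε w w' + b w w' • W b ε f e := by
  rw [W_comm _ (C.W_skew e w), ht.W_e_f hw, W_e_w hw', W_smul_left, W_smul_right]

/-- the symmetric case -/
theorem Ctx.all_pos [CharZero E] [IsAlgClosed E] [FiniteDimensional E V] (C : Ctx b 1 L T)
    (hdim : 5 ≤ finrank E V) (hτ : τ ∈ T) (ht : Tri b τ z e f) (x y : V) : W b 1 x y ∈ L := by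
  have hsk : ∀ X ∈ L, ∀ v, b v (X v) = 0 := by
    intro X hX v
    have h1 := C.skew X hX v v
    rw [C.symm v (X v)] at h1
    linear_combination h1 / 2
  have hWx : ∀ x, W b 1 x x = 0 := by
    intro x
    ext v
    rw [W_ff]
    simp
  have hP : ∃ u ∈ PP b 1 L e f, ∃ v ∈ PP b 1 L e f, b u v ≠ 0 := by
    by_contra h
    push Not at h
    exact C.lemB' hdim hτ ht (fun X hX => hsk X hX f) h
  have hQ : ∃ u ∈ PP b 1 L f ((1 : E) • e), ∃ v ∈ PP b 1 L f ((1 : E) • e), b u v ≠ 0 := by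
    by_contra h
    push Not at h
    exact C.lemB hdim hτ ht (fun X hX => hsk X hX e) h
  obtain ⟨u, hu, u', hu', huu⟩ := hP
  obtain ⟨v, hv, v', hv', hvv⟩ := hQ
  have h1 : ∀ w, Pp b e f w → W b 1 e w ∈ L := by
    intro w hw
    obtain ⟨p, hp, q, hq, rfl⟩ := C.sum_PQ hdim hτ ht hw
    have h2 := (PP b 1 L e f).add_mem hp (C.lemA hτ ht hu hu' huu hq)
    obtain ⟨-, c, hc⟩ := h2
    rw [hWx, smul_zero, add_zero] at hc
    exact hc
  have h2 : ∀ w, Pp b e f w → W b 1 f w ∈ L := by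
    intro w hw
    obtain ⟨p, hp, q, hq, rfl⟩ := C.sum_PQ hdim hτ ht hw
    have h2 := (PP b 1 L f ((1 : E) • e)).add_mem (C.lemA' hτ ht hv hv' hvv hp) hq
    obtain ⟨-, c, hc⟩ := h2
    rw [hWx, smul_zero, add_zero] at hc
    exact hc
  have h3 : W b 1 f e ∈ L := by
    have k1 := C.lie _ (h1 u hu.1) _ (h2 u' hu'.1)
    have k2 := C.lie _ (h1 u' hu'.1) _ (h2 u hu.1)
    rw [C.comm_ef ht hu.1 hu'.1] at k1
    rw [C.comm_ef ht hu'.1 hu.1, C.W_swap u u', C.symm u u'] at k2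
    have k3 := L.add_mem k1 k2
    have k4 : (-1 : E) • W b 1 u u' + b u u' • W b 1 f e +
        ((-1 : E) • (-1 : E) • W b 1 u u' + (1 * b u u') • W b 1 f e) =
        (2 * b u u') • W b 1 f e := by module
    rw [k4] at k3
    have k5 := L.smul_mem (2 * b u u')⁻¹ k3
    rw [smul_smul, inv_mul_cancel₀ (mul_ne_zero two_ne_zero huu), one_smul] at k5
    exact k5
  have h4 : W b 1 e f ∈ L := by
    rw [C.W_swap]
    exact L.smul_mem _ h3
  refine C.gen ht.ee ht.ff ht.ef ?_ ?_ h4 h1 h2 ?_ x y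
  · rw [hWx]; exact L.zero_mem
  · rw [hWx]; exact L.zero_mem
  · intro w w' hw hw'
    have k1 := C.lie _ (h1 w hw) _ (h2 w' hw')
    rw [C.comm_ef ht hw hw'] at k1
    have k2 := L.sub_mem k1 (L.smul_mem (b w w') h3)
    rw [add_sub_cancel_right] at k2
    have k3 := L.smul_mem (-1 : E) k2
    rw [smul_smul] at k3
    norm_num at k3
    exact k3

end Pool.Agent.MPB
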