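import Pool.Agent.Lib_helper99.MP.Full3

/-!
# The Lie algebra is the algebra of all skew maps: the alternating case
-/

open Module

namespace Pool.Agent.MPB

variable {E V : Type*} [Field E] [AddCommGroup V] [Module E V]
  {b : V →ₗ[E] V →ₗ[E] E} {L : Submodule E (Module.End E V)}
  {T : Set (V ≃ₗ[E] V)} {τ : V ≃ₗ[E] V} {z : E} {e f : V}

/-- three functionals have two independent common zeros -/
theorem two_zeros [FiniteDimensional E V] (hdim : 5 ≤ finrank E V) (a1 a2 a3 : V →ₗ[E] E) :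
    ∃ v1 v2 : V, (a1 v1 = 0 ∧ a2 v1 = 0 ∧ a3 v1 = 0) ∧ (a1 v2 = 0 ∧ a2 v2 = 0 ∧ a3 v2 = 0) ∧
      ∀ s t : E, s • v1 + t • v2 = 0 → s = 0 ∧ t = 0 := by
  set F : V →ₗ[E] E × E × E := a1.prod (a2.prod a3) with hF
  have h1 := LinearMap.finrank_range_add_finrank_ker F
  have h2 : finrank E (LinearMap.range F) ≤ 3 := by
    refine (Submodule.finrank_le _).trans ?_
    simp
  have h3 : 1 < finrank E (LinearMap.ker F) := by omega
  have h4 : 0 < finrank E (LinearMap.ker F) := by omega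
  have := Module.nontrivial_of_finrank_pos h4
  obtain ⟨x, hx⟩ := exists_ne (0 : LinearMap.ker F)
  obtain ⟨y, hy⟩ := exists_linearIndependent_pair_of_one_lt_finrank h3 hx
  have hz : ∀ v : LinearMap.ker F, a1 v = 0 ∧ a2 v = 0 ∧ a3 v = 0 := by
    intro v
    have h5 : F v.1 = 0 := v.2
    have h6 : (a1 v.1, a2 v.1, a3 v.1) = (0 : E × E × E) := h5
    simpa [Prod.ext_iff] using h6
  refine ⟨x, y, hz x, hz y, fun s t hst => ?_⟩
  rw [LinearIndependent.pair_iff] at hy
  apply hy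
  apply Subtype.ext
  exact hst

theorem Wsymm (x y : V) : W b (-1) x y = W b (-1) y x := by
  ext v
  simp only [W_apply]
  module

theorem comm_add (X A B : Module.End E V) (c : E) :
    X * (A + c • B) - (A + c • B) * X = (X * A - A * X) + c • (X * B - B * X) := by
  rw [mul_add, add_mul, mul_smul_comm, smul_mul_assoc, smul_sub]
  abel

variable [CharZero E]

theorem Ctx.alt (C : Ctx b (-1) L T) (v : V) : b v v = 0 := by
  have := C.symm v v
  linear_combination this / 2

omit [CharZero E] in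
/-- the commutator of two elements -/
theorem Ctx.comm_ee (C : Ctx b (-1) L T) (ht : Tri b τ z e f) {u u' : V} (hu : Pp b e f u)
    (hu' : Pp b e f u') {c c' : E} (hc : W b (-1) e u + c • W b (-1) f f ∈ L)
    (hc' : W b (-1) e u' + c' • W b (-1) f f ∈ L) :
    b u u' • W b (-1) e e + (2 : E) • W b (-1) f (c' • u - c • u') ∈ L := by
  have h1 := C.lie _ hc _ hc'
  set X := W b (-1) e u + c • W b (-1) f f with hX
  have hsk : ∀ u v, b (X u) v + b u (X v) = 0 := C.skew X hc
  have e1 : X e = (-2 * c) • f := by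
    rw [hX, LinearMap.add_apply, LinearMap.smul_apply, C.W_e_e ht hu, W_ff, C.symm e f, ht.ef]
    module
  have e2 : X f = u := by
    rw [hX, LinearMap.add_apply, LinearMap.smul_apply, ht.W_e_f hu, W_ff, ht.ff]
    module
  have e3 : X u' = b u u' • e := by
    rw [hX, LinearMap.add_apply, LinearMap.smul_apply, W_e_w hu', W_ff, C.f_w hu']
    module
  have e4 := W_comm (ε := -1) X hsk e u'
  have e5 := W_comm (ε := -1) X hsk f f
  rw [e1, e3, W_smul_left, W_smul_right] at e4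
  rw [e2, Wsymm u f] at e5
  have e6 : X * (W b (-1) e u' + c' • W b (-1) f f) - (W b (-1) e u' + c' • W b (-1) f f) * X =
      (X * W b (-1) e u' - W b (-1) e u' * X) +
        c' • (X * W b (-1) f f - W b (-1) f f * X) := comm_add _ _ _ _
  rw [e6, e4, e5] at h1
  have e7 : W b (-1) f (c' • u - c • u') = c' • W b (-1) f u - c • W b (-1) f u' := by
    rw [sub_eq_add_neg, ← neg_smul, W_add_right, W_smul_right, W_smul_right]
    module
  rw [e7]
  have e8 : (-2 * c) • W b (-1) f u' + b u u' • W b (-1) e e +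
      c' • (W b (-1) f u + W b (-1) f u) =
      b u u' • W b (-1) e e + (2 : E) • (c' • W b (-1) f u - c • W b (-1) f u') := by module
  rw [e8] at h1
  exact h1

omit [CharZero E] in
theorem smul_mem_iff' {c : E} (hc : c ≠ 0) {X : Module.End E V} : c • X ∈ L ↔ X ∈ L := by
  constructor
  · intro h
    have := L.smul_mem c⁻¹ h
    rwa [smul_smul, inv_mul_cancel₀ hc, one_smul] at this
  · exact fun h => L.smul_mem c h

omit [CharZero E] in
/-- a vector of the complement orthogonal to the complement is zero -/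
theorem Ctx.perp_zero {ε : E} (C : Ctx b ε L T) (ht : Tri b τ z e f) {u : V} (hu : Pp b e f u)
    (h : ∀ w, Pp b e f w → b u w = 0) : u = 0 := by
  apply C.nondeg
  intro v
  rw [pr_dec (b := b) (e := e) (f := f) v, map_add, map_add, map_smul, map_smul,
    h _ (ht.pp v), C.w_e hu, hu.1]
  simp

variable [FiniteDimensional E V]

/-- the case `P = M^⊥` -/
theorem Ctx.caseA (C : Ctx b (-1) L T) (hdim : 5 ≤ finrank E V) (ht : Tri b τ z e f)
    (hP : ∀ w, Pp b e f w → w ∈ PP b (-1) L e f) : W b (-1) e e ∈ L := by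
  by_contra hee
  obtain ⟨u1, hu1, c1, hc1, hc1'⟩ : ∃ u, Pp b e f u ∧ ∃ c : E, c ≠ 0 ∧
      W b (-1) e u + c • W b (-1) f f ∈ L := by
    by_contra hno
    push Not at hno
    obtain ⟨v1, v2, h1, h2, h3⟩ := two_zeros hdim (b.flip f) (b e) 0
    have hv1 : Pp b e f v1 := ⟨h1.1, h1.2.1⟩
    have hv10 : v1 ≠ 0 := by
      rintro rfl
      have := (h3 1 0 (by simp)).1
      exact one_ne_zero this
    apply hv10
    apply C.perp_zero ht hv1
    intro w hw
    obtain ⟨-, c, hc⟩ := hP v1 hv1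
    obtain ⟨-, d, hd⟩ := hP w hw
    have hc0 : c = 0 := by
      by_contra h
      exact hno v1 hv1 c h hc
    have hd0 : d = 0 := by
      by_contra h
      exact hno w hw d h hd
    have h4 := C.comm_ee ht hv1 hw hc hd
    rw [hc0, hd0, zero_smul, zero_smul, sub_zero, W_zero_right, smul_zero, add_zero] at h4
    by_contra h5
    exact hee ((smul_mem_iff' h5).1 h4)
  have hK : ∀ u, Pp b e f u → W b (-1) e u ∈ L → b u1 u = 0 → u = 0 := by
    intro u hu huL h0
    have huL' : W b (-1) e u + (0 : E) • W b (-1) f f ∈ L := by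
      rw [zero_smul, add_zero]; exact huL
    have h1 := C.comm_ee ht hu hu1 huL' hc1'
    rw [C.symm u1 u, h0, mul_zero, zero_smul, zero_add, zero_smul, sub_zero, W_smul_right,
      smul_mem_iff' two_ne_zero, smul_mem_iff' hc1] at h1
    apply C.perp_zero ht hu
    intro w hw
    obtain ⟨-, d, hd⟩ := hP w hw
    have h2 := C.comm_ee ht hu hw huL' hd
    rw [zero_smul, sub_zero, W_smul_right] at h2
    have h3 := L.sub_mem h2 (L.smul_mem (2 : E) (L.smul_mem d h1))
    rw [add_sub_cancel_right] at h3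
    by_contra h5
    exact hee ((smul_mem_iff' h5).1 h3)
  obtain ⟨v1, v2, h1, h2, h3⟩ := two_zeros hdim (b.flip f) (b e) (b u1)
  have hv1 : Pp b e f v1 := ⟨h1.1, h1.2.1⟩
  have hv2 : Pp b e f v2 := ⟨h2.1, h2.2.1⟩
  obtain ⟨-, c, hc⟩ := hP v1 hv1
  obtain ⟨-, d, hd⟩ := hP v2 hv2
  have h4 : d • v1 + (-c) • v2 = 0 := by
    apply hK
    · exact ⟨by simp [hv1.1, hv2.1], by simp [hv1.2, hv2.2]⟩
    · rw [W_add_right, W_smul_right, W_smul_right]
      have h5 := L.sub_mem (L.smul_mem d hc) (L.smul_mem c hd)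
      have h6 : d • (W b (-1) e v1 + c • W b (-1) f f) - c • (W b (-1) e v2 + d • W b (-1) f f) =
        d • W b (-1) e v1 + (-c) • W b (-1) e v2 := by module
      rw [h6] at h5
      exact h5
    · rw [map_add, map_smul, map_smul, h1.2.2, h2.2.2]
      simp
  obtain ⟨-, h6⟩ := h3 d (-c) h4
  have hc0 : c = 0 := neg_eq_zero.1 h6
  rw [hc0, zero_smul, add_zero] at hc
  have h7 := hK v1 hv1 hc h1.2.2
  have := (h3 1 0 (by simp [h7])).1
  exact one_ne_zero this

variable [IsAlgClosed E]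

/-- the case of isotropic `P` and `Q` -/
theorem Ctx.caseB (C : Ctx b (-1) L T) (hdim : 5 ≤ finrank E V) (hτ : τ ∈ T)
    (ht : Tri b τ z e f)
    (hP : ∀ u ∈ PP b (-1) L e f, ∀ v ∈ PP b (-1) L e f, b u v = 0)
    (hQ : ∀ u ∈ PP b (-1) L f ((-1 : E) • e), ∀ v ∈ PP b (-1) L f ((-1 : E) • e), b u v = 0) :
    False := by
  have hPQ : ∀ p, p ∈ PP b (-1) L e f → p ∈ PP b (-1) L f ((-1 : E) • e) → p = 0 := by
    intro p hp hq
    apply C.perp_zero ht hp.1
    intro w hw
    obtain ⟨p', hp', q', hq', rfl⟩ := C.sum_PQ hdim hτ ht hw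
    rw [map_add, hP p hp p' hp', hQ p hq q' hq', add_zero]
  have hc0 : ∀ (u : V) (c : E), Pp b e f u → W b (-1) e u + c • W b (-1) f f ∈ L → c = 0 := by
    intro u c hu hc
    by_contra hne
    have huP : u ∈ PP b (-1) L e f := ⟨hu, c, hc⟩
    have h1 : ∀ p ∈ PP b (-1) L e f, ∃ s : E, p = s • u := by
      rintro p ⟨hp, d, hd⟩
      have h2 := C.comm_ee ht hu hp hc hd
      rw [hP u huP p ⟨hp, d, hd⟩, zero_smul, zero_add, smul_mem_iff' two_ne_zero] at h2
      have h3 : Pp b e f (d • u - c • p) :=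
        ⟨by simp [hu.1, hp.1], by simp [hu.2, hp.2]⟩
      have h4 : d • u - c • p = 0 := by
        apply hPQ
        · exact (PP b (-1) L e f).sub_mem ((PP b (-1) L e f).smul_mem d huP)
            ((PP b (-1) L e f).smul_mem c ⟨hp, d, hd⟩)
        · refine ⟨C.pp_swap.2 h3, 0, ?_⟩
          rw [zero_smul, add_zero]
          exact h2
      refine ⟨c⁻¹ * d, ?_⟩
      rw [mul_smul, sub_eq_zero.1 h4, smul_smul, inv_mul_cancel₀ hne, one_smul]
    have h2 : ∀ v, Pp b e f v → b u v = 0 → ∃ s : E, v = s • u := by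
      intro v hv h0
      obtain ⟨p, hp, q, hq, rfl⟩ := C.sum_PQ hdim hτ ht hv
      rw [map_add, hP u huP p hp, zero_add] at h0
      have hq0 : q = 0 := by
        apply C.perp_zero ht (C.pp_swap.1 hq.1)
        intro w hw
        obtain ⟨p', hp', q', hq', rfl⟩ := C.sum_PQ hdim hτ ht hw
        obtain ⟨s, rfl⟩ := h1 p' hp'
        rw [map_add, hQ q hq q' hq', map_smul, C.symm u q, h0]
        simp
      rw [hq0, add_zero]
      exact h1 p hp
    obtain ⟨v1, v2, k1, k2, k3⟩ := two_zeros hdim (b.flip f) (b e) (b u)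
    obtain ⟨s, hs⟩ := h2 v1 ⟨k1.1, k1.2.1⟩ k1.2.2
    obtain ⟨t, ht'⟩ := h2 v2 ⟨k2.1, k2.2.1⟩ k2.2.2
    have k4 : t • v1 + (-s) • v2 = 0 := by
      rw [hs, ht']
      module
    obtain ⟨k5, k6⟩ := k3 t (-s) k4
    rw [neg_eq_zero] at k6
    rw [k6, zero_smul] at hs
    have := (k3 1 0 (by simp [hs])).1
    exact one_ne_zero this
  refine C.lemB hdim hτ ht ?_ hQ
  intro X hX
  have h1 := C.comp hτ ht hX
  rw [neg_neg, one_smul, sub_eq_add_neg, ← neg_smul] at h1
  have h2 := hc0 _ _ (ht.pp _) h1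
  linear_combination -2 * h2

/-- there is a transvection in `L` -/
theorem Ctx.exW (C : Ctx b (-1) L T) (hdim : 5 ≤ finrank E V) (hτ : τ ∈ T)
    (ht : Tri b τ z e f) : ∃ v : V, v ≠ 0 ∧ W b (-1) v v ∈ L := by
  by_cases hP : ∀ u ∈ PP b (-1) L e f, ∀ v ∈ PP b (-1) L e f, b u v = 0
  · by_cases hQ : ∀ u ∈ PP b (-1) L f ((-1 : E) • e),
        ∀ v ∈ PP b (-1) L f ((-1 : E) • e), b u v = 0
    · exact (C.caseB hdim hτ ht hP hQ).elim
    · push Not at hQ
      obtain ⟨u, hu, v, hv, huv⟩ := hQ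
      refine ⟨f, ht.f_ne, C.caseA hdim (ht.swap C) ?_⟩
      intro w hw
      obtain ⟨p, hp, q, hq, rfl⟩ := C.sum_PQ hdim hτ ht (C.pp_swap.1 hw)
      exact (PP b (-1) L f ((-1 : E) • e)).add_mem (C.lemA' hτ ht hu hv huv hp) hq
  · push Not at hP
    obtain ⟨u, hu, v, hv, huv⟩ := hP
    refine ⟨e, ht.e_ne, C.caseA hdim ht ?_⟩
    intro w hw
    obtain ⟨p, hp, q, hq, rfl⟩ := C.sum_PQ hdim hτ ht hw
    exact (PP b (-1) L e f).add_mem hp (C.lemA hτ ht hu hv huv hq)

end Pool.Agent.MPB
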