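import Pool.Agent.Lib_helper99.MP.Full4

/-!
# The Lie algebra is the algebra of all skew maps: the end
-/

open Module

namespace Pool.Agent.MPB

variable {E V : Type*} [Field E] [AddCommGroup V] [Module E V]
  {b : V →ₗ[E] V →ₗ[E] E} {L : Submodule E (Module.End E V)}
  {T : Set (V ≃ₗ[E] V)} {τ : V ≃ₗ[E] V} {z : E} {e f : V}
  [CharZero E] [FiniteDimensional E V] [IsAlgClosed E]

/-- a hyperbolic pair of transvections -/
theorem Ctx.exPair (C : Ctx b (-1) L T) (hdim : 5 ≤ finrank E V) (hτ : τ ∈ T)
    (ht : Tri b τ z e f) :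
    ∃ v v' : V, b v v' = 1 ∧ W b (-1) v v ∈ L ∧ W b (-1) v' v' ∈ L := by
  obtain ⟨v0, hv0, hL0⟩ := C.exW hdim hτ ht
  have hst : ∀ σ ∈ T, ∀ u ∈ Submodule.span E {v : V | W b (-1) v v ∈ L},
      σ u ∈ Submodule.span E {v : V | W b (-1) v v ∈ L} := by
    intro σ hσ u hu
    induction hu using Submodule.span_induction with
    | mem x hx =>
      apply Submodule.subset_span
      have h2 := C.nrm σ hσ _ hx
      rw [C.W_conj hσ] at h2
      exact h2
    | zero => rw [map_zero]; exact Submodule.zero_mem _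
    | add x y _ _ hx hy => rw [map_add]; exact Submodule.add_mem _ hx hy
    | smul c x _ hx => rw [map_smul]; exact Submodule.smul_mem _ _ hx
  have h1 : Submodule.span E {v : V | W b (-1) v v ∈ L} = ⊤ := by
    rcases C.irr _ hst with h | h
    · exfalso
      apply hv0
      have : v0 ∈ Submodule.span E {v : V | W b (-1) v v ∈ L} := Submodule.subset_span hL0
      rw [h] at this
      exact this
    · exact h
  obtain ⟨v', hv', hne⟩ : ∃ v', W b (-1) v' v' ∈ L ∧ b v0 v' ≠ 0 := by
    by_contra hno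
    push Not at hno
    apply hv0
    apply C.nondeg
    intro y
    have hy : y ∈ Submodule.span E {v : V | W b (-1) v v ∈ L} := by rw [h1]; trivial
    induction hy using Submodule.span_induction with
    | mem x hx => exact hno x hx
    | zero => rw [map_zero]
    | add x y _ _ hx hy => rw [map_add, hx, hy, add_zero]
    | smul c x _ hx => rw [map_smul, hx, smul_zero]
  refine ⟨v0, (b v0 v')⁻¹ • v', ?_, hL0, ?_⟩
  · rw [map_smul, smul_eq_mul, inv_mul_cancel₀ hne]
  · rw [W_smul_left, W_smul_right]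
    exact L.smul_mem _ (L.smul_mem _ hv')

/-- the alternating case -/
theorem Ctx.all_neg (C : Ctx b (-1) L T) (hdim : 5 ≤ finrank E V) (hτ : τ ∈ T)
    (ht : Tri b τ z e f) (x y : V) : W b (-1) x y ∈ L := by
  obtain ⟨v, v', h1, hv, hv'⟩ := C.exPair hdim hτ ht
  have pp : ∀ u, Pp b v v' (pr b v v' u) := by
    intro u
    constructor
    · rw [pr_apply]
      simp only [map_sub, map_smul, LinearMap.sub_apply, LinearMap.smul_apply, smul_eq_mul, h1,
        C.alt]
      ring
    · rw [pr_apply]
      simp only [map_sub, map_smul, smul_eq_mul, h1, C.alt]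
      ring
  have h1' : b v' v = -1 := by rw [C.symm v v', h1]; ring
  have hpv : ∀ w, Pp b v v' w → b w v = 0 := fun w hw => C.symm0.1 hw.2
  have hpv' : ∀ w, Pp b v v' w → b v' w = 0 := fun w hw => C.symm0.1 hw.1
  -- the action of `W v v` and `W v' v'`
  have a1 : W b (-1) v v v' = (2 : E) • v := by
    rw [W_ff, h1]
    module
  have a2 : ∀ w, Pp b v v' w → W b (-1) v v w = 0 := by
    intro w hw
    rw [W_ff, hw.2]
    simp
  have a3 : W b (-1) v' v' v = (-2 : E) • v' := by
    rw [W_ff, h1']
    module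
  have a4 : ∀ w, Pp b v v' w → W b (-1) v' v' w = 0 := by
    intro w hw
    rw [W_ff, hpv' w hw]
    simp
  have a5 : ∀ p, Pp b v v' p → W b (-1) v p v' = p := by
    intro p hp
    rw [W_apply, hp.1, h1]
    module
  have a6 : ∀ p w, Pp b v v' w → W b (-1) v p w = b p w • v := by
    intro p w hw
    rw [W_apply, hw.2]
    simp
  -- commutators
  have c0 : W b (-1) v v' ∈ L := by
    have k1 := C.lie _ hv _ hv'
    rw [W_comm _ (C.W_skew v v), a1, W_smul_left, W_smul_right, Wsymm v' v, ← smul_add,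
      ← two_smul E, smul_mem_iff' two_ne_zero, smul_mem_iff' two_ne_zero] at k1
    exact k1
  have c0' : W b (-1) v' v ∈ L := by rw [Wsymm]; exact c0
  have c1 : ∀ w, Pp b v v' w → W b (-1) v w ∈ L → W b (-1) v' w ∈ L := by
    intro w hw hL
    have k1 := C.lie _ hv' _ hL
    rw [W_comm _ (C.W_skew v' v'), a3, a4 w hw, W_smul_left, W_zero_right, add_zero,
      smul_mem_iff' (by norm_num)] at k1
    exact k1
  have c2 : ∀ w, Pp b v v' w → W b (-1) v' w ∈ L → W b (-1) v w ∈ L := by
    intro w hw hL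
    have k1 := C.lie _ hv _ hL
    rw [W_comm _ (C.W_skew v v), a1, a2 w hw, W_smul_left, W_zero_right, add_zero,
      smul_mem_iff' (by norm_num)] at k1
    exact k1
  have c3 : ∀ p w, Pp b v v' p → Pp b v v' w → W b (-1) v p ∈ L → W b (-1) v w ∈ L →
      W b (-1) p w ∈ L := by
    intro p w hp hw hpL hwL
    have k1 := C.lie _ hpL _ (c1 w hw hwL)
    rw [W_comm _ (C.W_skew v p), a5 p hp, a6 p w hw, W_smul_right] at k1
    have k2 := L.sub_mem k1 (L.smul_mem (b p w) c0')
    rw [add_sub_cancel_right] at k2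
    exact k2
  -- the space `W0`
  let W0 : Submodule E V :=
    { carrier := {w | Pp b v v' w ∧ W b (-1) v w ∈ L}
      add_mem' := fun {x y} hx hy => ⟨⟨by simp [hx.1.1, hy.1.1], by simp [hx.1.2, hy.1.2]⟩, by
        rw [W_add_right]; exact L.add_mem hx.2 hy.2⟩
      zero_mem' := ⟨⟨by simp, by simp⟩, by rw [W_zero_right]; exact L.zero_mem⟩
      smul_mem' := fun c x hx => ⟨⟨by simp [hx.1.1], by simp [hx.1.2]⟩, by
        rw [W_smul_right]; exact L.smul_mem _ hx.2⟩ }
  set M := Submodule.span E {v, v'} with hM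
  have hvM : v ∈ M := Submodule.subset_span (by simp)
  have hvM' : v' ∈ M := Submodule.subset_span (by simp)
  have hdec : ∀ u, W b (-1) v (pr b v v' u) ∈ L → u ∈ M ⊔ W0 := by
    intro u hu
    rw [pr_dec (b := b) (e := v) (f := v') u, add_assoc, add_comm]
    exact Submodule.add_mem_sup (M.add_mem (M.smul_mem _ hvM) (M.smul_mem _ hvM')) ⟨pp u, hu⟩
  -- if `W v u ∈ L` then `W v (pr u) ∈ L`
  have hW1 : ∀ u, W b (-1) v u ∈ L → W b (-1) v (pr b v v' u) ∈ L := by
    intro u hu
    have k1 : pr b v v' u = u + (-(b u v')) • v + (-(b v u)) • v' := by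
      rw [pr_apply]
      module
    rw [k1, W_add_right, W_add_right, W_smul_right, W_smul_right]
    exact L.add_mem (L.add_mem hu (L.smul_mem _ hv)) (L.smul_mem _ c0)
  have hW2 : ∀ u, W b (-1) v' u ∈ L → W b (-1) v (pr b v v' u) ∈ L := by
    intro u hu
    apply c2 _ (pp u)
    have k1 : pr b v v' u = u + (-(b u v')) • v + (-(b v u)) • v' := by
      rw [pr_apply]
      module
    rw [k1, W_add_right, W_add_right, W_smul_right, W_smul_right]
    exact L.add_mem (L.add_mem hu (L.smul_mem _ c0')) (L.smul_mem _ hv')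
  have hXv : ∀ X ∈ L, W b (-1) v (X v) ∈ L := by
    intro X hX
    have k1 := C.lie _ hX _ hv
    rw [W_comm _ (C.skew X hX), Wsymm (X v) v, ← two_smul E, smul_mem_iff' two_ne_zero] at k1
    exact k1
  have hXv' : ∀ X ∈ L, W b (-1) v' (X v') ∈ L := by
    intro X hX
    have k1 := C.lie _ hX _ hv'
    rw [W_comm _ (C.skew X hX), Wsymm (X v') v', ← two_smul E, smul_mem_iff' two_ne_zero] at k1
    exact k1
  have hst : LS L (M ⊔ W0) := by
    intro X hX u hu
    obtain ⟨m, hm, w, hw, rfl⟩ := Submodule.mem_sup.1 hu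
    rw [map_add]
    apply Submodule.add_mem
    · obtain ⟨α, β, rfl⟩ := Submodule.mem_span_pair.1 hm
      rw [map_add, map_smul, map_smul]
      apply Submodule.add_mem
      · apply Submodule.smul_mem
        exact hdec _ (hW1 _ (hXv X hX))
      · apply Submodule.smul_mem
        exact hdec _ (hW2 _ (hXv' X hX))
    · apply hdec
      apply hW1
      obtain ⟨hwp, hwL⟩ := hw
      have k1 := C.lie _ hX _ hwL
      rw [W_comm _ (C.skew X hX)] at k1
      have k2 : W b (-1) (X v) w ∈ L := by
        rw [pr_dec (b := b) (e := v) (f := v') (X v), W_add_left, W_add_left, W_smul_left,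
          W_smul_left]
        exact L.add_mem (L.add_mem (c3 _ _ (pp _) hwp (hW1 _ (hXv X hX)) hwL)
          (L.smul_mem _ hwL)) (L.smul_mem _ (c1 w hwp hwL))
      have k3 := L.sub_mem k1 k2
      rw [add_sub_cancel_left] at k3
      exact k3
  have hvne : v ≠ 0 := by
    rintro rfl
    simp at h1
  have htop : M ⊔ W0 = ⊤ := by
    rcases C.irreducible hdim _ hst with h | h
    · exfalso
      apply hvne
      have : v ∈ M ⊔ W0 := Submodule.mem_sup_left hvM
      rw [h] at this
      exact this
    · exact h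
  have hall : ∀ w, Pp b v v' w → W b (-1) v w ∈ L := by
    intro w hw
    have : w ∈ M ⊔ W0 := by rw [htop]; trivial
    obtain ⟨m, hm, w', hw', h2⟩ := Submodule.mem_sup.1 this
    obtain ⟨α, β, rfl⟩ := Submodule.mem_span_pair.1 hm
    have h3 : pr b v v' w = w' := by
      rw [← h2, map_add, map_add, map_smul, map_smul, pr_eq hw'.1]
      have e1 : pr b v v' v = 0 := by rw [pr_apply, h1, C.alt]; simp
      have e2 : pr b v v' v' = 0 := by rw [pr_apply, h1, C.alt]; simp
      rw [e1, e2]
      simp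
    rw [pr_eq hw] at h3
    rw [h3]
    exact hw'.2
  refine C.gen (C.alt v) (C.alt v') h1 hv hv' c0 hall ?_ ?_ x y
  · intro w hw
    exact c1 w hw (hall w hw)
  · intro w w' hw hw'
    exact c3 w w' hw hw' (hall w hw) (hall w' hw')

/-- **The theorem**: `L` contains all skew maps. -/
theorem Ctx.full {ε : E} (C : Ctx b ε L T) (hdim : 5 ≤ finrank E V) {X : Module.End E V}
    (hX : ∀ u v, b (X u) v + b u (X v) = 0) : X ∈ L := by
  have hne : ∃ τ, τ ∈ T := by
    by_contra hno
    push Not at hno
    have h4 : 0 < finrank E V := by omega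
    have := Module.nontrivial_of_finrank_pos h4
    obtain ⟨x, hx⟩ := exists_ne (0 : V)
    rcases C.irr (Submodule.span E {x}) (fun τ hτ => absurd hτ (hno τ)) with h | h
    · apply hx
      have : x ∈ Submodule.span E {x} := Submodule.subset_span (by simp)
      rw [h] at this
      exact this
    · have h5 := finrank_span_singleton (K := E) hx
      rw [h, finrank_top] at h5
      omega
  obtain ⟨τ, hτ⟩ := hne
  obtain ⟨z, e, f, ht⟩ := C.tri hτ
  rcases C.eps with h | h
  · subst h
    exact C.full_of_W (fun x y => C.all_pos hdim hτ ht x y) hX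
  · subst h
    exact C.full_of_W (fun x y => C.all_neg hdim hτ ht x y) hX

end Pool.Agent.MPB
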