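import Pool.Agent.Lib_helper99.MP.Tri

/-!
# The Lie algebra is irreducible
-/

open Module

namespace Pool.Agent.MPB

variable {E V : Type*} [Field E] [AddCommGroup V] [Module E V]
  {b : V →ₗ[E] V →ₗ[E] E} {ε : E} {L : Submodule E (Module.End E V)}
  {T : Set (V ≃ₗ[E] V)} {τ : V ≃ₗ[E] V} {z : E} {e f : V}

/-- `U` is stable under `L` -/
def LS (L : Submodule E (Module.End E V)) (U : Submodule E V) : Prop :=
  ∀ X ∈ L, ∀ u ∈ U, X u ∈ U

section basic

theorem Ctx.eps_ne (C : Ctx b ε L T) : ε ≠ 0 := by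
  rcases C.eps with h | h <;> rw [h] <;> simp

theorem Ctx.symm0 (C : Ctx b ε L T) {x y : V} : b x y = 0 ↔ b y x = 0 := by
  rw [C.symm x y]
  simp [C.eps_ne]

theorem Ctx.symm_apply (C : Ctx b ε L T) (hτ : τ ∈ T) (v : V) : τ.symm v = τ (τ v) := by
  rw [LinearEquiv.symm_apply_eq, C.cube τ hτ]

theorem Ctx.nrm' (C : Ctx b ε L T) (hτ : τ ∈ T) {X : Module.End E V} (hX : X ∈ L) :
    τ.symm.conj X ∈ L := by
  have h1 := C.nrm τ hτ _ (C.nrm τ hτ X hX)
  have h2 : τ.symm.conj X = τ.conj (τ.conj X) := by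
    ext v
    simp only [LinearEquiv.conj_apply_apply, LinearEquiv.symm_symm, C.symm_apply hτ]
    rw [C.cube τ hτ]
  rw [h2]
  exact h1

theorem conj_apply' (X : Module.End E V) (v : V) : τ.symm.conj X v = τ.symm (X (τ v)) := rfl

/-- the vectors killed by `L` -/
theorem Ctx.no_inv (C : Ctx b ε L T) {w : V} (hw : ∀ X ∈ L, X w = 0) : w = 0 := by
  let U : Submodule E V :=
    { carrier := {v | ∀ X ∈ L, X v = 0}
      add_mem' := fun {x y} hx hy X hX => by rw [map_add, hx X hX, hy X hX, add_zero]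
      zero_mem' := fun X _ => map_zero X
      smul_mem' := fun c x hx X hX => by rw [map_smul, hx X hX, smul_zero] }
  have hst : ∀ τ ∈ T, ∀ u ∈ U, τ u ∈ U := by
    intro τ hτ u hu X hX
    have h1 := hu _ (C.nrm' hτ hX)
    rw [conj_apply'] at h1
    exact τ.symm.map_eq_zero_iff.1 h1
  rcases C.irr U hst with h | h
  · have : w ∈ U := hw
    rw [h] at this
    exact this
  · exfalso
    apply C.ne
    rw [eq_bot_iff]
    intro X hX
    rw [Submodule.mem_bot]
    ext v
    have : v ∈ U := by rw [h]; trivial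
    simpa using this X hX

theorem Ctx.skew0 [CharZero E] (C : Ctx b ε L T) {X : Module.End E V} (hX : X ∈ L) {w : V} {c : E}
    (hc : c ≠ 0) (h : X w = c • w) : b w w = 0 := by
  have h1 := C.skew X hX w w
  rw [h, map_smul, LinearMap.smul_apply, map_smul, smul_eq_mul] at h1
  have h2 : c * b w w = 0 := by linear_combination h1 / 2
  exact (mul_eq_zero.1 h2).resolve_left hc

end basic

/-- there is no line stable under `L` -/
theorem Ctx.no_line [CharZero E] [IsAlgClosed E] [FiniteDimensional E V] (C : Ctx b ε L T)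
    {w0 : V} (hw0 : w0 ≠ 0) (hst : ∀ X ∈ L, ∃ c : E, X w0 = c • w0) : False := by
  obtain ⟨y0, hy0⟩ : ∃ y, b w0 y ≠ 0 := by
    by_contra h
    push Not at h
    exact hw0 (C.nondeg w0 h)
  set la : Module.End E V → E := fun X => b (X w0) y0 / b w0 y0 with hla
  have hw : ∀ X ∈ L, X w0 = la X • w0 := by
    intro X hX
    obtain ⟨c, hc⟩ := hst X hX
    have : la X = c := by
      simp only [hla]
      rw [hc, map_smul, LinearMap.smul_apply, smul_eq_mul]
      field_simp
    rw [this, hc]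
  -- the weight is not zero
  obtain ⟨X0, hX0, hX0'⟩ : ∃ X ∈ L, la X ≠ 0 := by
    by_contra h
    push Not at h
    exact hw0 (C.no_inv fun X hX => by rw [hw X hX, h X hX, zero_smul])
  let U : Submodule E V :=
    { carrier := {v | ∀ X ∈ L, X v = la X • v}
      add_mem' := fun {x y} hx hy X hX => by rw [map_add, hx X hX, hy X hX, smul_add]
      zero_mem' := fun X _ => by rw [map_zero, smul_zero]
      smul_mem' := fun c x hx X hX => by rw [map_smul, hx X hX, smul_comm] }
  have hUt : U ≠ ⊤ := by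
    intro h
    have h1 := C.skew X0 hX0 w0 y0
    have h2 : y0 ∈ U := by rw [h]; trivial
    rw [hw X0 hX0, h2 X0 hX0] at h1
    simp only [map_smul, LinearMap.smul_apply, smul_eq_mul] at h1
    have h3 : la X0 * b w0 y0 = 0 := by linear_combination h1 / 2
    rcases mul_eq_zero.1 h3 with h4 | h4
    · exact hX0' h4
    · exact hy0 h4
  have hUb : U ≠ ⊥ := by
    intro h
    have : w0 ∈ U := hw
    rw [h] at this
    exact hw0 this
  obtain ⟨τ, hτ, w, hwU, hτw⟩ : ∃ τ ∈ T, ∃ w ∈ U, τ w ∉ U := by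
    by_contra h
    push Not at h
    rcases C.irr U h with h1 | h1
    · exact hUb h1
    · exact hUt h1
  have hwne : w ≠ 0 := by
    rintro rfl
    apply hτw
    rw [map_zero]
    exact U.zero_mem
  have hX1 : ∀ X ∈ L, X (τ w) = la (τ.symm.conj X) • τ w := by
    intro X hX
    have h1 := hwU _ (C.nrm' hτ hX)
    rw [conj_apply', LinearEquiv.symm_apply_eq, map_smul] at h1
    exact h1
  have hX2 : ∀ X ∈ L, X (τ (τ w)) = la (τ.symm.conj (τ.symm.conj X)) • τ (τ w) := by
    intro X hX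
    have h1 := hX1 _ (C.nrm' hτ hX)
    rw [conj_apply', LinearEquiv.symm_apply_eq, map_smul] at h1
    exact h1
  have hX3 : ∀ X ∈ L, la (τ.symm.conj (τ.symm.conj (τ.symm.conj X))) = la X := by
    intro X _
    congr 1
    ext v
    simp only [conj_apply']
    rw [C.cube τ hτ, C.symm_apply hτ, C.symm_apply hτ, C.symm_apply hτ]
    rw [C.cube τ hτ, C.cube τ hτ]
  have hb0 : b w (τ w) = 0 := by
    by_contra hne
    have h1 : ∀ X ∈ L, la (τ.symm.conj X) = - la X := by
      intro X hX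
      have h2 := C.skew X hX w (τ w)
      rw [hwU X hX, hX1 X hX] at h2
      simp only [map_smul, LinearMap.smul_apply, smul_eq_mul] at h2
      have h3 : (la (τ.symm.conj X) + la X) * b w (τ w) = 0 := by linear_combination h2
      rcases mul_eq_zero.1 h3 with h4 | h4
      · linear_combination h4
      · exact absurd h4 hne
    have h2 := hX3 X0 hX0
    rw [h1 _ (C.nrm' hτ (C.nrm' hτ hX0)), h1 _ (C.nrm' hτ hX0), h1 _ hX0] at h2
    apply hX0'
    linear_combination -h2 / 2
  have hww : b w w = 0 := C.skew0 hX0 hX0' (hwU X0 hX0)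
  obtain ⟨z, e, f, ht⟩ := C.tri hτ
  have hz := ht.hz
  -- either `b e w = 0` or `b w f = 0`
  obtain ⟨k, hk0, hk1, hk⟩ : ∃ k : E, k ≠ 0 ∧ 1 + k ≠ 0 ∧ τ (τ w) = (1 + k) • τ w - k • w := by
    have h1 : b w f * b e w * (ε * (z - 1) + (z ^ 2 - 1)) = 0 := by
      have h2 := hb0
      rw [ht.form w] at h2
      simp only [map_add, map_smul, smul_eq_mul, hww] at h2
      rw [C.symm e w] at h2
      linear_combination h2
    have h3 : ε * (z - 1) + (z ^ 2 - 1) ≠ 0 := by
      rcases C.eps with h | h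
      · rw [h]
        intro h4
        have : (3 : E) = 0 := by linear_combination hz - h4
        norm_num at this
      · rw [h]
        intro h4
        apply zz_ne hz
        linear_combination h4
    have h4 : b w f = 0 ∨ b e w = 0 := by
      rcases mul_eq_zero.1 h1 with h5 | h5
      · exact mul_eq_zero.1 h5
      · exact absurd h5 h3
    rcases h4 with h4 | h4
    · refine ⟨z ^ 2, pow_ne_zero 2 (z_ne hz), ?_, ?_⟩
      · intro h5
        apply z_ne hz
        linear_combination hz - h5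
      · have h5 : τ w - w = ((z ^ 2 - 1) * b e w) • f := by
          rw [ht.form w, h4]
          module
        have h6 : τ (τ w) - τ w = (z ^ 2) • (τ w - w) := by
          rw [← map_sub, h5, map_smul, ht.tf, smul_comm]
        have h7 : τ (τ w) = (τ (τ w) - τ w) + τ w := by abel
        rw [h7, h6]
        module
    · refine ⟨z, z_ne hz, ?_, ?_⟩
      · intro h5
        apply pow_ne_zero 2 (z_ne hz)
        linear_combination hz - h5
      · have h5 : τ w - w = ((z - 1) * b w f) • e := by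
          rw [ht.form w, h4]
          module
        have h6 : τ (τ w) - τ w = z • (τ w - w) := by
          rw [← map_sub, h5, map_smul, ht.te, smul_comm]
        have h7 : τ (τ w) = (τ (τ w) - τ w) + τ w := by abel
        rw [h7, h6]
        module
  -- comparison of the weights
  have h5 : ∀ X ∈ L, ((1 + k) * (la (τ.symm.conj X) - la (τ.symm.conj (τ.symm.conj X)))) • τ w
      = (k * (la X - la (τ.symm.conj (τ.symm.conj X)))) • w := by
    intro X hX
    have h6 := hX2 X hX
    rw [hk, map_sub, map_smul, map_smul, hX1 X hX, hwU X hX] at h6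
    have h7 : ((1 + k) * (la (τ.symm.conj X) - la (τ.symm.conj (τ.symm.conj X)))) • τ w
      - (k * (la X - la (τ.symm.conj (τ.symm.conj X)))) • w =
      ((1 + k) • la (τ.symm.conj X) • τ w - k • la X • w) -
        la (τ.symm.conj (τ.symm.conj X)) • ((1 + k) • τ w - k • w) := by module
    rw [← sub_eq_zero, h7, h6, sub_self]
  have h6 : ∀ X ∈ L, la X = la (τ.symm.conj (τ.symm.conj X)) := by
    intro X hX
    by_contra hne
    have h7 := h5 X hX
    have h8 : k * (la X - la (τ.symm.conj (τ.symm.conj X))) ≠ 0 :=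
      mul_ne_zero hk0 (sub_ne_zero.2 hne)
    have h9 : (1 + k) * (la (τ.symm.conj X) - la (τ.symm.conj (τ.symm.conj X))) ≠ 0 := by
      intro h10
      rw [h10, zero_smul] at h7
      rcases smul_eq_zero.1 h7.symm with h11 | h11
      · exact h8 h11
      · exact hwne h11
    apply hτw
    have h10 : τ w = (((1 + k) * (la (τ.symm.conj X) - la (τ.symm.conj (τ.symm.conj X))))⁻¹ *
        (k * (la X - la (τ.symm.conj (τ.symm.conj X))))) • w := by
      rw [mul_smul, ← h7, smul_smul, inv_mul_cancel₀ h9, one_smul]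
    rw [h10]
    exact U.smul_mem _ hwU
  apply hτw
  intro X hX
  have h7 := h5 X hX
  rw [← h6 X hX, sub_self, mul_zero, zero_smul] at h7
  have hτwne : τ w ≠ 0 := fun h => hwne (τ.map_eq_zero_iff.1 h)
  rcases smul_eq_zero.1 h7 with h8 | h8
  · have h9 := (mul_eq_zero.1 h8).resolve_left hk1
    rw [hX1 X hX, sub_eq_zero.1 h9]
  · exact absurd h8 hτwne

/-- minimal nonzero stable subspace -/
def Mn (L : Submodule E (Module.End E V)) (W : Submodule E V) : Prop :=
  LS L W ∧ W ≠ ⊥ ∧ ∀ U, LS L U → U ≤ W → U = ⊥ ∨ U = W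

theorem LS.inf {U W : Submodule E V} (hU : LS L U) (hW : LS L W) : LS L (U ⊓ W) :=
  fun X hX u hu => ⟨hU X hX u hu.1, hW X hX u hu.2⟩

theorem LS.sup {U W : Submodule E V} (hU : LS L U) (hW : LS L W) : LS L (U ⊔ W) := by
  intro X hX u hu
  obtain ⟨a, ha, c, hc, rfl⟩ := Submodule.mem_sup.1 hu
  rw [map_add]
  exact Submodule.add_mem_sup (hU X hX a ha) (hW X hX c hc)

theorem LS.map {σ : V ≃ₗ[E] V} (hσ : ∀ X ∈ L, σ.symm.conj X ∈ L) {U : Submodule E V}
    (hU : LS L U) : LS L (U.map (σ : V →ₗ[E] V)) := by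
  rintro X hX _ ⟨u, hu, rfl⟩
  refine ⟨σ.symm (X (σ u)), hU _ (hσ X hX) u hu, ?_⟩
  simp

theorem Mn.map (C : Ctx b ε L T) (hτ : τ ∈ T) {W : Submodule E V} (hW : Mn L W) :
    Mn L (W.map (τ : V →ₗ[E] V)) := by
  refine ⟨hW.1.map fun X hX => C.nrm' hτ hX, ?_, ?_⟩
  · rw [Ne, Submodule.map_eq_bot_iff]
    exact hW.2.1
  · intro U hU hUW
    have h1 : LS L (U.map (τ.symm : V →ₗ[E] V)) := hU.map fun X hX => by
      rw [LinearEquiv.symm_symm]
      exact C.nrm τ hτ X hX
    have h2 : U.map (τ.symm : V →ₗ[E] V) ≤ W := by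
      rintro _ ⟨u, hu, rfl⟩
      obtain ⟨w, hw, rfl⟩ := hUW hu
      simpa using hw
    have h3 : (U.map (τ.symm : V →ₗ[E] V)).map (τ : V →ₗ[E] V) = U := by
      ext v
      constructor
      · rintro ⟨_, ⟨u, hu, rfl⟩, rfl⟩
        simpa using hu
      · intro hv
        exact ⟨τ.symm v, ⟨v, hv, rfl⟩, by simp⟩
    rcases hW.2.2 _ h1 h2 with h4 | h4
    · left
      rw [← h3, h4, Submodule.map_bot]
    · right
      rw [← h3, h4]

theorem LS.perp (C : Ctx b ε L T) {U : Submodule E V} (hU : LS L U) {X : Module.End E V}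
    (hX : X ∈ L) {v : V} (hv : ∀ y ∈ U, b v y = 0) : ∀ y ∈ U, b (X v) y = 0 := by
  intro y hy
  have h1 := C.skew X hX v y
  rw [hv _ (hU X hX y hy), add_zero] at h1
  exact h1

section plane

variable [CharZero E] [IsAlgClosed E] [FiniteDimensional E V]

theorem Ctx.finrank_ne_one (C : Ctx b ε L T) {W : Submodule E V} (hW : LS L W) :
    finrank E W ≠ 1 := by
  intro h
  obtain ⟨⟨w0, hw0⟩, hne, hall⟩ := finrank_eq_one_iff'.1 h
  refine C.no_line (w0 := w0) (fun h0 => hne (Subtype.ext h0)) ?_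
  intro X hX
  obtain ⟨c, hc⟩ := hall ⟨X w0, hW X hX w0 hw0⟩
  exact ⟨c, (congrArg Subtype.val hc).symm⟩

/-- a minimal stable subspace which is moved by some `τ ∈ T` is a plane -/
theorem Ctx.plane (C : Ctx b ε L T) (hτ : τ ∈ T) {W : Submodule E V} (hW : Mn L W)
    (hmv : ¬ ∀ w ∈ W, τ w ∈ W) :
    W ⊓ W.map (τ : V →ₗ[E] V) = ⊥ ∧ finrank E W = 2 ∧ ∀ v, ∃ w ∈ W, τ v - v = τ w - w := by
  have h1 : W ⊓ W.map (τ : V →ₗ[E] V) = ⊥ := by
    rcases hW.2.2 _ (hW.1.inf (hW.map C hτ).1) inf_le_left with h | h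
    · exact h
    · exfalso
      apply hmv
      have h2 : W ≤ W.map (τ : V →ₗ[E] V) := inf_eq_left.1 h
      have h3 : W = W.map (τ : V →ₗ[E] V) :=
        Submodule.eq_of_le_of_finrank_eq h2 (LinearEquiv.finrank_map_eq τ W).symm
      intro w hw
      rw [h3]
      exact ⟨w, hw, rfl⟩
  set D : V →ₗ[E] V := (τ : V →ₗ[E] V) - LinearMap.id with hD
  have hinj : ∀ w ∈ W, D w = 0 → w = 0 := by
    intro w hw h
    have h2 : τ w = w := by
      rw [hD, LinearMap.sub_apply, LinearMap.id_apply, sub_eq_zero] at h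
      exact h
    have h3 : w ∈ W ⊓ W.map (τ : V →ₗ[E] V) := ⟨hw, ⟨w, hw, h2⟩⟩
    rw [h1] at h3
    exact h3
  have h2 : finrank E (W.map D) = finrank E W := by
    rw [← LinearMap.range_domRestrict]
    apply LinearMap.finrank_range_of_inj
    intro x y hxy
    have h3 : D (x.1 - y.1) = 0 := by
      rw [map_sub, sub_eq_zero]
      exact hxy
    have := hinj (x.1 - y.1) (W.sub_mem x.2 y.2) h3
    exact Subtype.ext (sub_eq_zero.1 this)
  have h3 : W.map D ≤ LinearMap.range D := LinearMap.map_le_range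
  have h4 := Submodule.finrank_mono h3
  rw [h2, C.rank τ hτ] at h4
  have h5 : finrank E W ≠ 0 := by
    rw [Ne, Submodule.finrank_eq_zero]
    exact hW.2.1
  have h6 := C.finrank_ne_one hW.1
  have h7 : finrank E W = 2 := by omega
  refine ⟨h1, h7, ?_⟩
  have h8 : W.map D = LinearMap.range D :=
    Submodule.eq_of_le_of_finrank_eq h3 (by rw [h2, h7, C.rank τ hτ])
  intro v
  have h9 : D v ∈ W.map D := by rw [h8]; exact ⟨v, rfl⟩
  obtain ⟨w, hw, hwv⟩ := h9
  exact ⟨w, hw, hwv.symm⟩

end plane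

end Pool.Agent.MPB
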