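import Pool.Agent.Lib_helper99.MP.Irr

/-!
# The Lie algebra is irreducible, second part
-/

open Module

namespace Pool.Agent.MPB

variable {E V : Type*} [Field E] [AddCommGroup V] [Module E V]
  {b : V →ₗ[E] V →ₗ[E] E} {ε : E} {L : Submodule E (Module.End E V)}
  {T : Set (V ≃ₗ[E] V)} {τ : V ≃ₗ[E] V} {z : E} {e f : V}
  [CharZero E] [IsAlgClosed E] [FiniteDimensional E V]

/-- a minimal stable subspace and its image are not orthogonal -/
theorem Ctx.pair (C : Ctx b ε L T) (hτ : τ ∈ T) {W : Submodule E V} (hW : Mn L W)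
    (hmv : ¬ ∀ w ∈ W, τ w ∈ W) : ∃ u ∈ W, ∃ v ∈ W, b (τ u) v ≠ 0 := by
  by_contra hno
  push Not at hno
  have hno' : ∀ u ∈ W, ∀ v ∈ W, b u (τ v) = 0 := fun u hu v hv => C.symm0.2 (hno v hv u hu)
  obtain ⟨hdis, -, hrng⟩ := C.plane hτ hW hmv
  obtain ⟨z, e, f, ht⟩ := C.tri hτ
  have hz1 := z1_ne ht.hz
  have hz21 := z21_ne ht.hz
  -- `W` is not isotropic
  have he : ∃ u ∈ W, e = τ u - u := by
    obtain ⟨w, hw, h1⟩ := hrng ((z - 1)⁻¹ • e)
    refine ⟨w, hw, ?_⟩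
    rw [← h1, map_smul, ht.te]
    have h7 : (z - 1)⁻¹ * (z - 1) = 1 := inv_mul_cancel₀ hz1
    have : (z - 1)⁻¹ • z • e - (z - 1)⁻¹ • e = ((z - 1)⁻¹ * (z - 1)) • e := by module
    rw [this, h7, one_smul]
  have hf : ∃ u ∈ W, f = τ u - u := by
    obtain ⟨w, hw, h1⟩ := hrng ((z ^ 2 - 1)⁻¹ • f)
    refine ⟨w, hw, ?_⟩
    rw [← h1, map_smul, ht.tf]
    have h7 : (z ^ 2 - 1)⁻¹ * (z ^ 2 - 1) = 1 := inv_mul_cancel₀ hz21
    have : (z ^ 2 - 1)⁻¹ • (z ^ 2) • f - (z ^ 2 - 1)⁻¹ • f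
      = ((z ^ 2 - 1)⁻¹ * (z ^ 2 - 1)) • f := by module
    rw [this, h7, one_smul]
  obtain ⟨u, hu, hue⟩ := he
  obtain ⟨v, hv, hvf⟩ := hf
  have h1 : b u v ≠ 0 := by
    intro h0
    have h2 := ht.ef
    rw [hue, hvf] at h2
    simp only [map_sub, LinearMap.sub_apply] at h2
    rw [C.iso τ hτ, hno u hu v hv, hno' u hu v hv, h0] at h2
    norm_num at h2
  -- so `W` is nondegenerate
  have hnd : ∀ w ∈ W, (∀ w' ∈ W, b w w' = 0) → w = 0 := by
    let Z : Submodule E V :=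
      { carrier := {x | x ∈ W ∧ ∀ w' ∈ W, b x w' = 0}
        add_mem' := fun {x y} hx hy => ⟨W.add_mem hx.1 hy.1, fun w' hw' => by
          rw [map_add, LinearMap.add_apply, hx.2 w' hw', hy.2 w' hw', add_zero]⟩
        zero_mem' := ⟨W.zero_mem, fun w' _ => by simp⟩
        smul_mem' := fun c x hx => ⟨W.smul_mem c hx.1, fun w' hw' => by
          rw [map_smul, LinearMap.smul_apply, hx.2 w' hw', smul_zero]⟩ }
    have hZ : LS L Z := fun X hX x hx => ⟨hW.1 X hX x hx.1, hW.1.perp C hX hx.2⟩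
    rcases hW.2.2 Z hZ (fun x hx => hx.1) with h2 | h2
    · intro w hw hw'
      have : w ∈ Z := ⟨hw, hw'⟩
      rw [h2] at this
      exact this
    · exfalso
      have : u ∈ Z := by rw [h2]; exact hu
      exact h1 (this.2 v hv)
  have h2 : ∀ w ∈ W, τ (τ w) ∈ W := by
    intro w hw
    obtain ⟨w', hw', h3⟩ := hrng (τ w)
    -- `τ τ w = τ (w + w') - w'`
    have h4 : τ (τ w) = τ (w + w') - w' := by
      rw [map_add]
      have : τ (τ w) = (τ (τ w) - τ w) + τ w := by abel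
      rw [this, h3]
      abel
    have h5 : w + w' = 0 := by
      apply hnd _ (W.add_mem hw hw')
      intro x hx
      have h6 : b (τ (τ w)) (τ x) = 0 := by
        rw [C.iso τ hτ]
        exact hno w hw x hx
      rw [h4, map_sub, LinearMap.sub_apply, C.iso τ hτ, hno' w' hw' x hx, sub_zero] at h6
      exact h6
    rw [h4, h5, map_zero, zero_sub]
    exact W.neg_mem hw'
  apply hmv
  intro w hw
  have h3 := h2 _ (h2 w hw)
  rw [C.cube τ hτ] at h3
  exact h3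

/-- the sum of a minimal stable subspace and its image -/
theorem Ctx.mem_e (C : Ctx b ε L T) (hτ : τ ∈ T) {W : Submodule E V} (hW : Mn L W)
    (hmv : ¬ ∀ w ∈ W, τ w ∈ W) (ht : Tri b τ z e f) :
    e ∈ W ⊔ W.map (τ : V →ₗ[E] V) ∧ f ∈ W ⊔ W.map (τ : V →ₗ[E] V) := by
  obtain ⟨-, -, hrng⟩ := C.plane hτ hW hmv
  have hz1 := z1_ne ht.hz
  have hz21 := z21_ne ht.hz
  have key : ∀ w ∈ W, τ w - w ∈ W ⊔ W.map (τ : V →ₗ[E] V) := fun w hw =>
    Submodule.sub_mem _ (Submodule.mem_sup_right ⟨w, hw, rfl⟩) (Submodule.mem_sup_left hw)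
  constructor
  · obtain ⟨w, hw, h1⟩ := hrng ((z - 1)⁻¹ • e)
    have h2 : e = τ w - w := by
      rw [← h1, map_smul, ht.te]
      have h7 : (z - 1)⁻¹ * (z - 1) = 1 := inv_mul_cancel₀ hz1
      have : (z - 1)⁻¹ • z • e - (z - 1)⁻¹ • e = ((z - 1)⁻¹ * (z - 1)) • e := by module
      rw [this, h7, one_smul]
    rw [h2]
    exact key w hw
  · obtain ⟨w, hw, h1⟩ := hrng ((z ^ 2 - 1)⁻¹ • f)
    have h2 : f = τ w - w := by
      rw [← h1, map_smul, ht.tf]
      have h7 : (z ^ 2 - 1)⁻¹ * (z ^ 2 - 1) = 1 := inv_mul_cancel₀ hz21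
      have : (z ^ 2 - 1)⁻¹ • (z ^ 2) • f - (z ^ 2 - 1)⁻¹ • f
        = ((z ^ 2 - 1)⁻¹ * (z ^ 2 - 1)) • f := by module
      rw [this, h7, one_smul]
    rw [h2]
    exact key w hw

theorem Ctx.stable_e (C : Ctx b ε L T) (ht : Tri b τ z e f)
    (h : ∀ X ∈ L, X (τ e) = τ (X e)) : False := by
  refine C.no_line ht.e_ne fun X hX => ⟨b (X e) f, ?_⟩
  apply ht.eig
  rw [← h X hX, ht.te, map_smul]

/-- `Y = W + τ W` is nondegenerate -/
theorem Ctx.nondegY (C : Ctx b ε L T) (hτ : τ ∈ T) {W : Submodule E V} (hW : Mn L W)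
    (hmv : ¬ ∀ w ∈ W, τ w ∈ W) {y0 : V} (hy0 : y0 ∈ W ⊔ W.map (τ : V →ₗ[E] V))
    (hy : ∀ y ∈ W ⊔ W.map (τ : V →ₗ[E] V), b y0 y = 0) : y0 = 0 := by
  by_contra hne
  obtain ⟨hdis, hrk, hrng⟩ := C.plane hτ hW hmv
  obtain ⟨z, e, f, ht⟩ := C.tri hτ
  obtain ⟨heY, hfY⟩ := C.mem_e hτ hW hmv ht
  set W' := W.map (τ : V →ₗ[E] V) with hW'
  set Y := W ⊔ W' with hY
  have hW'm : Mn L W' := hW.map C hτ
  have hYs : LS L Y := hW.1.sup hW'm.1
  let Z : Submodule E V :=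
    { carrier := {x | x ∈ Y ∧ ∀ w' ∈ Y, b x w' = 0}
      add_mem' := fun {x y} hx hy => ⟨Y.add_mem hx.1 hy.1, fun w' hw' => by
        rw [map_add, LinearMap.add_apply, hx.2 w' hw', hy.2 w' hw', add_zero]⟩
      zero_mem' := ⟨Y.zero_mem, fun w' _ => by simp⟩
      smul_mem' := fun c x hx => ⟨Y.smul_mem c hx.1, fun w' hw' => by
        rw [map_smul, LinearMap.smul_apply, hx.2 w' hw', smul_zero]⟩ }
  have hZ : LS L Z := fun X hX x hx => ⟨hYs X hX x hx.1, hYs.perp C hX hx.2⟩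
  have hZY : Z ≤ Y := fun x hx => hx.1
  have hfix : ∀ v ∈ Z, τ v = v := fun v hv =>
    ht.fixed (hv.2 f hfY) (C.symm0.2 (hv.2 e heY))
  have hfix' : ∀ v ∈ Z, τ.symm v = v := fun v hv => by
    rw [LinearEquiv.symm_apply_eq, hfix v hv]
  have hZW : W ⊓ Z = ⊥ := by
    rcases hW.2.2 _ (hW.1.inf hZ) inf_le_left with h | h
    · exact h
    · exfalso
      apply hmv
      intro w hw
      have : w ∈ Z := by rw [← h] at hw; exact hw.2
      rw [hfix w this]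
      exact hw
  have hZW' : W' ⊓ Z = ⊥ := by
    rw [eq_bot_iff]
    rintro x ⟨⟨w, hw, rfl⟩, hx⟩
    have h1 : τ (τ w) = τ w := hfix _ hx
    have h2 : τ w = w := τ.injective h1
    have h3 : w ∈ W ⊓ W' := ⟨hw, ⟨w, hw, h2⟩⟩
    rw [hdis] at h3
    have h4 : w = 0 := h3
    rw [h4, map_zero]
    exact Submodule.zero_mem _
  have hrk' : finrank E W' = 2 := by rw [hW', LinearEquiv.finrank_map_eq, hrk]
  have hfY4 : finrank E Y = 4 := by
    have := Submodule.finrank_sup_add_finrank_inf_eq W W'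
    rw [hdis, finrank_bot, hrk, hrk'] at this
    rw [hY]
    omega
  have hZ0 : finrank E Z ≠ 0 := by
    rw [Ne, Submodule.finrank_eq_zero]
    intro h
    have : y0 ∈ Z := ⟨hy0, hy⟩
    rw [h] at this
    exact hne this
  have hZ1 := C.finrank_ne_one hZ
  have h5 := Submodule.finrank_sup_add_finrank_inf_eq W Z
  have h6 := Submodule.finrank_sup_add_finrank_inf_eq W' Z
  rw [hZW, finrank_bot, hrk] at h5
  rw [hZW', finrank_bot, hrk'] at h6
  have h7 : W ⊔ Z ≤ Y := sup_le le_sup_left hZY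
  have h8 : W' ⊔ Z ≤ Y := sup_le le_sup_right hZY
  have h9 := Submodule.finrank_mono h7
  have h10 : W ⊔ Z = Y := Submodule.eq_of_le_of_finrank_le h7 (by omega)
  have h11 : W' ⊔ Z = Y := Submodule.eq_of_le_of_finrank_le h8 (by omega)
  -- `τ⁻¹ X τ = X` on `Z` and on `W`
  have hcZ : ∀ X ∈ L, ∀ v ∈ Z, τ.symm.conj X v = X v := by
    intro X hX v hv
    rw [conj_apply', hfix v hv, hfix' _ (hZ X hX v hv)]
  have hcW : ∀ X ∈ L, ∀ a ∈ W, τ.symm.conj X a = X a := by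
    intro X hX a ha
    have ha' : a ∈ W' ⊔ Z := by rw [h11]; exact Submodule.mem_sup_left ha
    obtain ⟨_, ⟨w, hw, rfl⟩, t, ht', hat⟩ := Submodule.mem_sup.1 ha'
    have hX1 := C.nrm' hτ hX
    have hX2 := C.nrm' hτ hX1
    have e1 : X a = τ (τ.symm.conj X w) + X t := by
      rw [← hat, map_add, conj_apply', LinearEquiv.apply_symm_apply]
      rfl
    have e2 : τ.symm.conj X a = τ (τ.symm.conj (τ.symm.conj X) w) + X t := by
      rw [← hat, map_add, hcZ X hX t ht']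
      congr 1
      rw [conj_apply' (τ.symm.conj X), LinearEquiv.apply_symm_apply]
      rfl
    have h12 : X a - τ.symm.conj X a ∈ W ⊓ W' := by
      refine ⟨W.sub_mem (hW.1 X hX a ha) (hW.1 _ hX1 a ha), ?_⟩
      rw [e1, e2]
      have : τ (τ.symm.conj X w) + X t - (τ (τ.symm.conj (τ.symm.conj X) w) + X t) =
          τ (τ.symm.conj X w - τ.symm.conj (τ.symm.conj X) w) := by
        rw [map_sub]
        abel
      rw [this]
      exact ⟨_, W.sub_mem (hW.1 _ hX1 w hw) (hW.1 _ hX2 w hw), rfl⟩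
    rw [hdis] at h12
    exact (sub_eq_zero.1 h12).symm
  refine C.stable_e ht fun X hX => ?_
  have he' : e ∈ W ⊔ Z := by rw [h10]; exact heY
  obtain ⟨a, ha, t, ht', hat⟩ := Submodule.mem_sup.1 he'
  have h13 : τ.symm.conj X e = X e := by
    rw [← hat, map_add, map_add, hcW X hX a ha, hcZ X hX t ht']
  rw [conj_apply', LinearEquiv.symm_apply_eq] at h13
  exact h13

end Pool.Agent.MPB
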