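import Pool.Agent.Lib_helper99.MP.Irr2

/-!
# The Lie algebra is irreducible, third part
-/

open Module

namespace Pool.Agent.MPB

variable {E V : Type*} [Field E] [AddCommGroup V] [Module E V]
  {b : V →ₗ[E] V →ₗ[E] E} {ε : E} {L : Submodule E (Module.End E V)}
  {T : Set (V ≃ₗ[E] V)} {τ : V ≃ₗ[E] V} {z : E} {e f : V}

/-- orthogonal decomposition for a nondegenerate subspace -/
theorem Ctx.decomp [FiniteDimensional E V] (C : Ctx b ε L T) {Y : Submodule E V}
    (hY : ∀ y ∈ Y, (∀ y' ∈ Y, b y y' = 0) → y = 0) (v : V) :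
    ∃ y ∈ Y, ∃ u, (∀ y' ∈ Y, b u y' = 0) ∧ v = y + u := by
  have hrefl : LinearMap.IsRefl b := fun x y h => C.symm0.1 h
  have hnd : (LinearMap.BilinForm.restrict b Y).Nondegenerate := by
    refine ⟨fun y h => ?_, fun y h => ?_⟩
    · apply Subtype.ext
      exact hY y.1 y.2 fun y' hy' => h ⟨y', hy'⟩
    · apply Subtype.ext
      exact hY y.1 y.2 fun y' hy' => C.symm0.2 (h ⟨y', hy'⟩)
  have h1 := LinearMap.BilinForm.isCompl_orthogonal_of_restrict_nondegenerate hrefl hnd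
  have h2 : v ∈ Y ⊔ LinearMap.BilinForm.orthogonal b Y := by
    rw [h1.sup_eq_top]
    trivial
  obtain ⟨y, hy, u, hu, h3⟩ := Submodule.mem_sup.1 h2
  exact ⟨y, hy, u, fun y' hy' => C.symm0.1 (hu y' hy'), h3.symm⟩

variable [CharZero E] [IsAlgClosed E] [FiniteDimensional E V]

/-- minimal stable subspaces which are not orthogonal to `Y = W + τ W` are in `Y` -/
theorem Ctx.le_Y (C : Ctx b ε L T) (hτ : τ ∈ T) {W : Submodule E V} (hW : Mn L W)
    (hmv : ¬ ∀ w ∈ W, τ w ∈ W) {Q : Submodule E V} (hQ : Mn L Q) {q y : V} (hq : q ∈ Q)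
    (hy : y ∈ W ⊔ W.map (τ : V →ₗ[E] V)) (hqy : b q y ≠ 0) :
    Q ≤ W ⊔ W.map (τ : V →ₗ[E] V) := by
  obtain ⟨z, e, f, ht⟩ := C.tri hτ
  obtain ⟨heY, hfY⟩ := C.mem_e hτ hW hmv ht
  have hnd := fun y hy' h => C.nondegY hτ hW hmv (y0 := y) hy' h
  set W' := W.map (τ : V →ₗ[E] V) with hW'
  set Y := W ⊔ W' with hY
  have hW'm : Mn L W' := hW.map C hτ
  have hYs : LS L Y := hW.1.sup hW'm.1
  have hdec := fun v => C.decomp (Y := Y) hnd v
  -- vectors orthogonal to `Y`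
  have hfix : ∀ u, (∀ y' ∈ Y, b u y' = 0) → τ u = u := fun v hv =>
    ht.fixed (hv f hfY) (C.symm0.2 (hv e heY))
  have hfix' : ∀ u, (∀ y' ∈ Y, b u y' = 0) → τ.symm u = u := fun v hv => by
    rw [LinearEquiv.symm_apply_eq, hfix v hv]
  -- the ideal `J`
  set J : Set (Module.End E V) := {X | X ∈ L ∧ ∀ u, (∀ y' ∈ Y, b u y' = 0) → X u = 0} with hJ
  have hJτ : ∀ X ∈ J, τ.conj X ∈ J := by
    rintro X ⟨hX, hX0⟩
    refine ⟨C.nrm τ hτ X hX, fun u hu => ?_⟩
    rw [LinearEquiv.conj_apply_apply, hfix' u hu, hX0 u hu, map_zero]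
  have hJτ' : ∀ X ∈ J, τ.symm.conj X ∈ J := by
    rintro X ⟨hX, hX0⟩
    refine ⟨C.nrm' hτ hX, fun u hu => ?_⟩
    rw [conj_apply', hfix u hu, hX0 u hu, map_zero]
  have hJL : ∀ X ∈ J, ∀ A ∈ L, A * X - X * A ∈ J := by
    rintro X ⟨hX, hX0⟩ A hA
    refine ⟨C.lie A hA X hX, fun u hu => ?_⟩
    rw [LinearMap.sub_apply, Module.End.mul_apply, Module.End.mul_apply, hX0 u hu, map_zero,
      hX0 _ (hYs.perp C hA hu), sub_zero]
  obtain ⟨X0, hX0J, hX0⟩ : ∃ X ∈ J, X ≠ 0 := by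
    by_contra hno
    push Not at hno
    refine C.stable_e ht fun X hX => ?_
    have h1 : τ.conj X - X ∈ J := by
      refine ⟨L.sub_mem (C.nrm τ hτ X hX) hX, fun u hu => ?_⟩
      rw [LinearMap.sub_apply, LinearEquiv.conj_apply_apply, hfix' u hu,
        hfix _ (hYs.perp C hX hu), sub_self]
    have h2 := hno _ h1
    have h3 : (τ.conj X - X) (τ e) = 0 := by rw [h2]; rfl
    rw [LinearMap.sub_apply, LinearEquiv.conj_apply_apply, LinearEquiv.symm_apply_apply,
      sub_eq_zero] at h3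
    exact h3.symm
  have hJY : ∀ X ∈ J, (∀ y ∈ Y, X y = 0) → X = 0 := by
    rintro X ⟨hX, hXJ⟩ h
    ext v
    obtain ⟨y, hy, u, hu, rfl⟩ := hdec v
    rw [map_add, h y hy, hXJ u hu]
    simp
  -- `J` is not zero on `W` and on `W'`
  have hJW : ∃ X ∈ J, ∃ w ∈ W, X w ≠ 0 := by
    by_contra hno
    push Not at hno
    apply hX0
    apply hJY X0 hX0J
    intro y hy
    obtain ⟨w, hw, _, ⟨w', hw', rfl⟩, rfl⟩ := Submodule.mem_sup.1 hy
    rw [map_add, hno X0 hX0J w hw, zero_add]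
    have h1 := hno _ (hJτ' X0 hX0J) w' hw'
    rw [conj_apply'] at h1
    exact τ.symm.map_eq_zero_iff.1 h1
  have hJW' : ∃ X ∈ J, ∃ w ∈ W', X w ≠ 0 := by
    obtain ⟨X, hX, w, hw, h⟩ := hJW
    refine ⟨τ.conj X, hJτ X hX, τ w, ⟨w, hw, rfl⟩, ?_⟩
    rw [LinearEquiv.conj_apply_apply, LinearEquiv.symm_apply_apply]
    exact fun h0 => h (τ.map_eq_zero_iff.1 h0)
  -- `J P` spans `P` for a minimal `P` on which `J` is not zero
  have hspan : ∀ P : Submodule E V, Mn L P → (∃ X ∈ J, ∃ w ∈ P, X w ≠ 0) →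
      P = Submodule.span E {x | ∃ X ∈ J, ∃ w ∈ P, x = X w} := by
    intro P hP hne
    set R := Submodule.span E {x | ∃ X ∈ J, ∃ w ∈ P, x = X w} with hR
    have h1 : LS L R := by
      intro A hA u hu
      induction hu using Submodule.span_induction with
      | mem x hx =>
        obtain ⟨X, hX, w, hw, rfl⟩ := hx
        have h2 : A (X w) = (A * X - X * A) w + X (A w) := by
          rw [LinearMap.sub_apply, Module.End.mul_apply, Module.End.mul_apply]
          abel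
        rw [h2]
        exact R.add_mem (Submodule.subset_span ⟨_, hJL X hX A hA, w, hw, rfl⟩)
          (Submodule.subset_span ⟨X, hX, A w, hP.1 A hA w hw, rfl⟩)
      | zero => rw [map_zero]; exact R.zero_mem
      | add x y _ _ hx hy => rw [map_add]; exact R.add_mem hx hy
      | smul c x _ hx => rw [map_smul]; exact R.smul_mem c hx
    have h2 : R ≤ P := by
      rw [hR, Submodule.span_le]
      rintro _ ⟨X, hX, w, hw, rfl⟩
      exact hP.1 X hX.1 w hw
    rcases hP.2.2 R h1 h2 with h3 | h3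
    · exfalso
      obtain ⟨X, hX, w, hw, h4⟩ := hne
      have h5 : X w ∈ R := Submodule.subset_span ⟨X, hX, w, hw, rfl⟩
      rw [h3] at h5
      exact h4 h5
    · exact h3.symm
  -- `J` moves `Q`
  obtain ⟨P, hP, hPne, p, hp, hqp⟩ : ∃ P : Submodule E V, Mn L P ∧
      (∃ X ∈ J, ∃ w ∈ P, X w ≠ 0) ∧ ∃ p ∈ P, b q p ≠ 0 := by
    obtain ⟨w, hw, w', hw', rfl⟩ := Submodule.mem_sup.1 hy
    by_cases h1 : b q w = 0
    · refine ⟨W', hW'm, hJW', w', hw', ?_⟩
      rw [map_add, h1, zero_add] at hqy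
      exact hqy
    · exact ⟨W, hW, hJW, w, hw, h1⟩
  have hQne : ∃ X ∈ J, ∃ w ∈ Q, X w ≠ 0 := by
    by_contra hno
    push Not at hno
    apply hqp
    have h1 : p ∈ Submodule.span E {x | ∃ X ∈ J, ∃ w ∈ P, x = X w} := by
      rw [← hspan P hP hPne]
      exact hp
    induction h1 using Submodule.span_induction with
    | mem x hx =>
      obtain ⟨X, hX, w, hw, rfl⟩ := hx
      have h2 := C.skew X hX.1 q w
      rw [hno X hX q hq, map_zero, LinearMap.zero_apply, zero_add] at h2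
      exact h2
    | zero => rw [map_zero]
    | add x y hx hy hx' hy' =>
      rw [← hspan P hP hPne] at hx hy
      have h3 : b q x = 0 := by
        by_contra h4
        exact h4 (hx' hx h4)
      have h4 : b q y = 0 := by
        by_contra h5
        exact h5 (hy' hy h5)
      rw [map_add, h3, h4, add_zero]
    | smul c x hx hx' =>
      rw [← hspan P hP hPne] at hx
      have h3 : b q x = 0 := by
        by_contra h4
        exact h4 (hx' hx h4)
      rw [map_smul, h3, smul_zero]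
  rw [hspan Q hQ hQne, Submodule.span_le]
  rintro _ ⟨X, hX, w, hw, rfl⟩
  obtain ⟨y, hy, u, hu, rfl⟩ := hdec w
  rw [map_add, hX.2 u hu, add_zero]
  exact hYs X hX.1 y hy

/-- **Irreducibility.** -/
theorem Ctx.irreducible (C : Ctx b ε L T) (hdim : 5 ≤ finrank E V) (U : Submodule E V)
    (hU : LS L U) : U = ⊥ ∨ U = ⊤ := by
  by_contra hno
  push Not at hno
  -- a minimal stable subspace
  have hex : ∃ n : ℕ, ∃ W : Submodule E V, LS L W ∧ W ≠ ⊥ ∧ finrank E W = n :=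
    ⟨_, U, hU, hno.1, rfl⟩
  classical
  obtain ⟨W, hW1, hW2, hW3⟩ := Nat.find_spec hex
  have hWm : Mn L W := by
    refine ⟨hW1, hW2, fun U' hU' hle => ?_⟩
    by_cases h0 : U' = ⊥
    · exact Or.inl h0
    · right
      apply Submodule.eq_of_le_of_finrank_le hle
      rw [hW3]
      exact Nat.find_min' hex ⟨U', hU', h0, rfl⟩
  have hWt : W ≠ ⊤ := by
    intro h
    have h1 : finrank E W ≤ finrank E U := by
      rw [hW3]
      exact Nat.find_min' hex ⟨U, hU, hno.1, rfl⟩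
    rw [h, finrank_top] at h1
    exact hno.2 (Submodule.eq_top_of_finrank_eq (le_antisymm (Submodule.finrank_le U) h1))
  obtain ⟨τ, hτ, hmv⟩ : ∃ τ ∈ T, ¬ ∀ w ∈ W, τ w ∈ W := by
    by_contra h
    push Not at h
    rcases C.irr W h with h1 | h1
    · exact hW2 h1
    · exact hWt h1
  obtain ⟨hdis, hrk, hrng⟩ := C.plane hτ hWm hmv
  set W' := W.map (τ : V →ₗ[E] V) with hW'
  have hW'm : Mn L W' := hWm.map C hτ
  have key : ∀ P : Submodule E V, Mn L P → P ≤ W ⊔ W' → ∀ σ ∈ T, ∀ p ∈ P, σ p ∈ W ⊔ W' := by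
    intro P hP hPY σ hσ p hp
    by_cases hm : ∀ w ∈ P, σ w ∈ P
    · exact hPY (hm p hp)
    · obtain ⟨u, hu, v, hv, huv⟩ := C.pair hσ hP hm
      have h1 : P.map (σ : V →ₗ[E] V) ≤ W ⊔ W' :=
        C.le_Y hτ hWm hmv (hP.map C hσ) (q := σ u) (y := v) ⟨u, hu, rfl⟩ (hPY hv) huv
      exact h1 ⟨p, hp, rfl⟩
  have hst : ∀ σ ∈ T, ∀ u ∈ W ⊔ W', σ u ∈ W ⊔ W' := by
    intro σ hσ u hu
    obtain ⟨w, hw, w', hw', rfl⟩ := Submodule.mem_sup.1 hu
    rw [map_add]
    exact Submodule.add_mem _ (key W hWm le_sup_left σ hσ w hw)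
      (key W' hW'm le_sup_right σ hσ w' hw')
  have hY : W ⊔ W' = ⊤ := by
    rcases C.irr _ hst with h | h
    · exfalso
      apply hW2
      rw [eq_bot_iff, ← h]
      exact le_sup_left
    · exact h
  have h1 := Submodule.finrank_sup_add_finrank_inf_eq W W'
  have hrk' : finrank E W' = 2 := by rw [hW', LinearEquiv.finrank_map_eq, hrk]
  rw [hY, hdis, finrank_bot, finrank_top, hrk, hrk'] at h1
  omega

end Pool.Agent.MPB
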