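import Mathlib

/-!
# Elements of order three and rank two which preserve a form

`E` is a field, `V` a vector space with a nondegenerate form `b` with `b y x = ε b x y`, `ε = ±1`.
-/

open Module

namespace Pool.Agent.MPB

variable {E V : Type*} [Field E] [AddCommGroup V] [Module E V]

/-- A nonzero Lie algebra `L` of skew maps and a set `T` of isometries of order `3` and rank `2`
which normalise `L`, without a common proper invariant subspace. -/
structure Ctx (b : V →ₗ[E] V →ₗ[E] E) (ε : E) (L : Submodule E (Module.End E V))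
    (T : Set (V ≃ₗ[E] V)) : Prop where
  eps : ε = 1 ∨ ε = -1
  symm : ∀ x y, b y x = ε * b x y
  nondeg : ∀ x, (∀ y, b x y = 0) → x = 0
  lie : ∀ X ∈ L, ∀ Y ∈ L, X * Y - Y * X ∈ L
  skew : ∀ X ∈ L, ∀ u v, b (X u) v + b u (X v) = 0
  ne : L ≠ ⊥
  nrm : ∀ τ ∈ T, ∀ X ∈ L, τ.conj X ∈ L
  iso : ∀ τ ∈ T, ∀ u v, b (τ u) (τ v) = b u v
  cube : ∀ τ ∈ T, ∀ v, τ (τ (τ v)) = v
  rank : ∀ τ ∈ T, finrank E (LinearMap.range ((τ : V →ₗ[E] V) - LinearMap.id)) = 2
  irr : ∀ U : Submodule E V, (∀ τ ∈ T, ∀ u ∈ U, τ u ∈ U) → U = ⊥ ∨ U = ⊤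

/-- The structure of an isometry of order `3` and rank `2`. -/
structure Tri (b : V →ₗ[E] V →ₗ[E] E) (τ : V ≃ₗ[E] V) (z : E) (e f : V) : Prop where
  hz : z ^ 2 + z + 1 = 0
  ef : b e f = 1
  ee : b e e = 0
  ff : b f f = 0
  form : ∀ v, τ v = v + ((z - 1) * b v f) • e + ((z ^ 2 - 1) * b e v) • f

section scal

variable {z : E}

theorem z3 (hz : z ^ 2 + z + 1 = 0) : z ^ 3 = 1 := by linear_combination (z - 1) * hz

theorem z_ne (hz : z ^ 2 + z + 1 = 0) : z ≠ 0 := by
  rintro rfl; simp at hz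

theorem z_ne_one [CharZero E] (hz : z ^ 2 + z + 1 = 0) : z ≠ 1 := by
  rintro rfl
  norm_num at hz

theorem z1_ne [CharZero E] (hz : z ^ 2 + z + 1 = 0) : z - 1 ≠ 0 := sub_ne_zero.2 (z_ne_one hz)

theorem hz2 (hz : z ^ 2 + z + 1 = 0) : (z ^ 2) ^ 2 + z ^ 2 + 1 = 0 := by
  linear_combination (z ^ 2 - z + 1) * hz

theorem z2_ne_one [CharZero E] (hz : z ^ 2 + z + 1 = 0) : z ^ 2 ≠ 1 := z_ne_one (hz2 hz)

theorem z21_ne [CharZero E] (hz : z ^ 2 + z + 1 = 0) : z ^ 2 - 1 ≠ 0 :=
  sub_ne_zero.2 (z2_ne_one hz)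

theorem zz_ne [CharZero E] (hz : z ^ 2 + z + 1 = 0) : z ^ 2 ≠ z := by
  intro h
  apply z_ne_one hz
  have h0 := z_ne hz
  have : z * (z - 1) = 0 := by linear_combination h
  rcases mul_eq_zero.1 this with h1 | h1
  · exact absurd h1 h0
  · linear_combination h1

end scal

section tri

variable {b : V →ₗ[E] V →ₗ[E] E} {ε : E} {L : Submodule E (Module.End E V)}
  {T : Set (V ≃ₗ[E] V)} {τ : V ≃ₗ[E] V} {z : E} {e f : V}

theorem Ctx.eps2 (C : Ctx b ε L T) : ε * ε = 1 := by
  rcases C.eps with h | h <;> rw [h] <;> ring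

theorem Tri.te (h : Tri b τ z e f) : τ e = z • e := by
  rw [h.form, h.ef, h.ee]
  module

theorem Tri.tf (h : Tri b τ z e f) : τ f = (z ^ 2) • f := by
  rw [h.form, h.ef, h.ff]
  module

theorem Tri.e_ne (h : Tri b τ z e f) : e ≠ 0 := by
  rintro rfl
  have := h.ef
  simp at this

theorem Tri.f_ne (h : Tri b τ z e f) : f ≠ 0 := by
  rintro rfl
  have := h.ef
  simp at this

theorem Tri.swap (h : Tri b τ z e f) (C : Ctx b ε L T) : Tri b τ (z ^ 2) f (ε • e) := by
  have e2 := C.eps2
  refine ⟨hz2 h.hz, ?_, h.ff, ?_, ?_⟩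
  · rw [map_smul, C.symm e f, h.ef, smul_eq_mul, mul_one, e2]
  · simp [h.ee]
  · intro v
    rw [h.form v, map_smul, smul_eq_mul, C.symm e v, C.symm f v]
    have h4 : (z ^ 2) ^ 2 - 1 = z - 1 := by
      have := z3 h.hz
      linear_combination z * this
    rw [h4, smul_smul]
    have h5 : (z ^ 2 - 1) * (ε * (ε * b e v)) = (z ^ 2 - 1) * b e v := by
      linear_combination (z ^ 2 - 1) * b e v * e2
    have h6 : (z - 1) * b f v * ε = (z - 1) * (ε * b f v) := by ring
    rw [h5, h6]
    abel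

/-- an eigenvector for `z` is a multiple of `e` -/
theorem Tri.eig [CharZero E] (h : Tri b τ z e f) {u : V} (hu : τ u = z • u) :
    u = (b u f) • e := by
  have h1 := h.form u
  rw [hu] at h1
  have hz1 := z1_ne h.hz
  have h2 : (z - 1) • u = ((z - 1) * b u f) • e + ((z ^ 2 - 1) * b e u) • f := by
    rw [sub_smul, h1]
    module
  have h3 : b e ((z - 1) • u) = b e (((z - 1) * b u f) • e + ((z ^ 2 - 1) * b e u) • f) := by
    rw [h2]
  simp only [map_add, map_smul, smul_eq_mul, h.ee, h.ef] at h3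
  have h4 : b e u = 0 := by
    have : (z - 1) * z * b e u = 0 := by linear_combination -h3
    rcases mul_eq_zero.1 this with h5 | h5
    · rcases mul_eq_zero.1 h5 with h6 | h6
      · exact absurd h6 hz1
      · exact absurd h6 (z_ne h.hz)
    · exact h5
  rw [h4, mul_zero, zero_smul, add_zero, mul_smul] at h2
  exact smul_right_injective V hz1 h2

theorem Tri.eig2 [CharZero E] (h : Tri b τ z e f) (C : Ctx b ε L T) {u : V}
    (hu : τ u = (z ^ 2) • u) : u = (b e u) • f := by
  have h1 := (h.swap C).eig hu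
  rw [map_smul, smul_eq_mul, C.symm e u, ← mul_assoc, C.eps2, one_mul] at h1
  exact h1

/-- a fixed vector is orthogonal to `e` and `f` -/
theorem Tri.fix [CharZero E] (h : Tri b τ z e f) {u : V} (hu : τ u = u) :
    b u f = 0 ∧ b e u = 0 := by
  have h1 := h.form u
  rw [hu] at h1
  have h2 : ((z - 1) * b u f) • e + ((z ^ 2 - 1) * b e u) • f = 0 := by
    rw [add_assoc] at h1
    exact left_eq_add.1 h1
  constructor
  · have h3 := congrArg (fun x => b x f) h2
    simp only [map_add, map_smul, LinearMap.add_apply, LinearMap.smul_apply, smul_eq_mul, h.ef,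
      h.ff, map_zero, LinearMap.zero_apply] at h3
    have : (z - 1) * b u f = 0 := by linear_combination h3
    exact (mul_eq_zero.1 this).resolve_left (z1_ne h.hz)
  · have h3 := congrArg (fun x => b e x) h2
    simp only [map_add, map_smul, smul_eq_mul, h.ef, h.ee, map_zero] at h3
    have : (z ^ 2 - 1) * b e u = 0 := by linear_combination h3
    exact (mul_eq_zero.1 this).resolve_left (z21_ne h.hz)

theorem Tri.fixed (h : Tri b τ z e f) {u : V} (h1 : b u f = 0) (h2 : b e u = 0) : τ u = u := by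
  rw [h.form, h1, h2]
  simp

end tri

section exist

variable {b : V →ₗ[E] V →ₗ[E] E} {ε : E} {L : Submodule E (Module.End E V)}
  {T : Set (V ≃ₗ[E] V)} {τ : V ≃ₗ[E] V}

theorem Ctx.eigen [CharZero E] (C : Ctx b ε L T) (hτ : τ ∈ T) {z : E} (hz : z ^ 2 + z + 1 = 0) :
    ∃ e : V, e ≠ 0 ∧ τ e = z • e := by
  by_contra hne
  push Not at hne
  -- every element of the range of `τ - 1` is an eigenvector for `z^2`
  have h1 : ∀ v, τ (τ v - v) = (z ^ 2) • (τ v - v) := by
    intro v
    set u := τ v - v with hu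
    have h3 : τ (τ u) + τ u + u = 0 := by
      rw [hu]
      simp only [map_sub, C.cube τ hτ]
      abel
    by_contra hc
    apply hne (τ u - (z ^ 2) • u) (sub_ne_zero.2 hc)
    have h4 : τ (τ u) = -(τ u) - u := by
      have : τ (τ u) = (τ (τ u) + τ u + u) - τ u - u := by abel
      rw [this, h3]
      abel
    rw [map_sub, map_smul, h4, smul_sub, smul_smul]
    have h5 : z * z ^ 2 = 1 := by linear_combination z3 hz
    rw [h5, one_smul]
    have h6 : z ^ 2 = - z - 1 := by linear_combination hz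
    rw [h6]
    module
  have h2 : ∀ v w, b (τ v - v) (τ w - w) = 0 := by
    intro v w
    have h3 := C.iso τ hτ (τ v - v) (τ w - w)
    rw [h1, h1] at h3
    simp only [map_smul, LinearMap.smul_apply, smul_eq_mul] at h3
    have h4 : (z - 1) * b (τ v - v) (τ w - w) = 0 := by
      have := z3 hz
      linear_combination h3 - z * b (τ v - v) (τ w - w) * this
    exact (mul_eq_zero.1 h4).resolve_left (z1_ne hz)
  have h3 : ∀ v, τ v - v = 0 := by
    intro v
    apply C.nondeg
    intro w
    have h4 := C.iso τ hτ (τ v - v) w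
    rw [h1] at h4
    have h5 : b (τ v - v) (τ w) = b (τ v - v) w := by
      have := h2 v w
      rw [map_sub] at this
      exact sub_eq_zero.1 this
    simp only [map_smul, LinearMap.smul_apply, smul_eq_mul] at h4
    rw [h5] at h4
    have h6 : (z ^ 2 - 1) * b (τ v - v) w = 0 := by linear_combination h4
    exact (mul_eq_zero.1 h6).resolve_left (z21_ne hz)
  have h4 : LinearMap.range ((τ : V →ₗ[E] V) - LinearMap.id) = ⊥ := by
    rw [LinearMap.range_eq_bot]
    ext v
    simpa using h3 v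
  have h5 := C.rank τ hτ
  rw [h4, finrank_bot] at h5
  omega

/-- the structure theorem -/
theorem Ctx.tri [CharZero E] [IsAlgClosed E] [FiniteDimensional E V] (C : Ctx b ε L T)
    (hτ : τ ∈ T) : ∃ z e f, Tri b τ z e f := by
  obtain ⟨z, hz⟩ : ∃ z : E, z ^ 2 + z + 1 = 0 := by
    obtain ⟨r, hr⟩ := IsAlgClosed.exists_pow_nat_eq (-3 : E) (n := 2) (by norm_num)
    refine ⟨(-1 + r) / 2, ?_⟩
    field_simp
    linear_combination hr
  obtain ⟨e, he0, he⟩ := C.eigen hτ hz
  obtain ⟨f, hf0, hf⟩ := C.eigen hτ (hz2 hz)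
  have h3 := z3 hz
  have hz1 := z1_ne hz
  have hz21 := z21_ne hz
  have ee : b e e = 0 := by
    have := C.iso τ hτ e e
    rw [he] at this
    simp only [map_smul, LinearMap.smul_apply, smul_eq_mul] at this
    have h4 : (z ^ 2 - 1) * b e e = 0 := by linear_combination this
    exact (mul_eq_zero.1 h4).resolve_left hz21
  have ff : b f f = 0 := by
    have := C.iso τ hτ f f
    rw [hf] at this
    simp only [map_smul, LinearMap.smul_apply, smul_eq_mul] at this
    have h4 : (z - 1) * b f f = 0 := by linear_combination this - z * b f f * h3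
    exact (mul_eq_zero.1 h4).resolve_left hz1
  -- the range is the span of `e` and `f`
  have hli : LinearIndependent E ![e, f] := by
    rw [LinearIndependent.pair_iff]
    intro s t hst
    have h5 : s • z • e + t • (z ^ 2) • f = 0 := by
      have := congrArg τ hst
      rw [map_add, map_smul, map_smul, he, hf, map_zero] at this
      exact this
    have h6 : (t * (z ^ 2 - z)) • f = 0 := by
      have : (t * (z ^ 2 - z)) • f = (s • z • e + t • (z ^ 2) • f) - z • (s • e + t • f) := by
        module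
      rw [this, h5, hst]
      simp
    have ht : t = 0 := by
      rcases smul_eq_zero.1 h6 with h7 | h7
      · rcases mul_eq_zero.1 h7 with h8 | h8
        · exact h8
        · exact absurd (sub_eq_zero.1 h8) (zz_ne hz)
      · exact absurd h7 hf0
    rw [ht, zero_smul, add_zero] at hst
    exact ⟨(smul_eq_zero.1 hst).resolve_right he0, ht⟩
  have hspan : Submodule.span E {e, f} =
      LinearMap.range ((τ : V →ₗ[E] V) - LinearMap.id) := by
    apply Submodule.eq_of_le_of_finrank_eq
    · rw [Submodule.span_le]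
      rintro x (rfl | rfl)
      · refine ⟨(z - 1)⁻¹ • x, ?_⟩
        rw [LinearMap.sub_apply, LinearEquiv.coe_coe, LinearMap.id_apply, map_smul, he]
        have h7 : (z - 1)⁻¹ * (z - 1) = 1 := inv_mul_cancel₀ hz1
        have : (z - 1)⁻¹ • z • x - (z - 1)⁻¹ • x = ((z - 1)⁻¹ * (z - 1)) • x := by module
        rw [this, h7, one_smul]
      · refine ⟨(z ^ 2 - 1)⁻¹ • x, ?_⟩
        rw [LinearMap.sub_apply, LinearEquiv.coe_coe, LinearMap.id_apply, map_smul, hf]
        have h7 : (z ^ 2 - 1)⁻¹ * (z ^ 2 - 1) = 1 := inv_mul_cancel₀ hz21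
        have : (z ^ 2 - 1)⁻¹ • (z ^ 2) • x - (z ^ 2 - 1)⁻¹ • x =
            ((z ^ 2 - 1)⁻¹ * (z ^ 2 - 1)) • x := by module
        rw [this, h7, one_smul]
    · rw [C.rank τ hτ]
      have := finrank_span_eq_card hli
      rw [Fintype.card_fin, Matrix.range_cons, Matrix.range_cons, Matrix.range_empty,
        Set.union_empty, Set.singleton_union] at this
      exact this
  have hform : ∀ v, ∃ α β : E, τ v - v = α • e + β • f := by
    intro v
    have h5 : τ v - v ∈ Submodule.span E {e, f} := by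
      rw [hspan]
      exact ⟨v, rfl⟩
    obtain ⟨α, β, h6⟩ := Submodule.mem_span_pair.1 h5
    exact ⟨α, β, h6.symm⟩
  have hef : b e f ≠ 0 := by
    intro h0
    apply he0
    apply C.nondeg
    intro v
    obtain ⟨α, β, h5⟩ := hform v
    have h6 : b e (τ v - v) = 0 := by
      rw [h5]
      simp [ee, h0]
    rw [map_sub] at h6
    have h7 := C.iso τ hτ e v
    rw [he, map_smul, LinearMap.smul_apply, smul_eq_mul] at h7
    have h8 : (z - 1) * b e v = 0 := by linear_combination h7 - z * h6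
    exact (mul_eq_zero.1 h8).resolve_left hz1
  set g := (b e f)⁻¹ • f with hg
  have heg : b e g = 1 := by rw [hg, map_smul, smul_eq_mul, inv_mul_cancel₀ hef]
  have hgg : b g g = 0 := by simp [hg, ff]
  have htg : τ g = (z ^ 2) • g := by rw [hg, map_smul, hf, smul_comm]
  refine ⟨z, e, g, hz, heg, ee, hgg, ?_⟩
  intro v
  obtain ⟨α, β, h5⟩ := hform v
  obtain ⟨γ, h5⟩ : ∃ γ : E, τ v - v = α • e + γ • g := by
    refine ⟨β * b e f, ?_⟩
    rw [h5, hg, smul_smul, mul_assoc, mul_inv_cancel₀ hef, mul_one]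
  have hα : α = (z - 1) * b v g := by
    have h6 : b (τ v - v) g = α := by
      rw [h5]
      simp [heg, hgg]
    have h7 := C.iso τ hτ v g
    rw [htg, map_smul, smul_eq_mul] at h7
    rw [map_sub, LinearMap.sub_apply] at h6
    linear_combination z * h7 - h6 - b (τ v) g * h3
  have hγ : γ = (z ^ 2 - 1) * b e v := by
    have h6 : b e (τ v - v) = γ := by
      rw [h5]
      simp [heg, ee]
    have h7 := C.iso τ hτ e v
    rw [he, map_smul, LinearMap.smul_apply, smul_eq_mul] at h7
    rw [map_sub] at h6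
    linear_combination z ^ 2 * h7 - h6 - b e (τ v) * h3
  rw [← hα, ← hγ, add_assoc, ← h5]
  abel

end exist

end Pool.Agent.MPB
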