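import Pool.Agent.Lib_helper99.MP.Irr3

/-!
# The maps `W x y`
-/

open Module

namespace Pool.Agent.MPB

variable {E V : Type*} [Field E] [AddCommGroup V] [Module E V]
  {b : V →ₗ[E] V →ₗ[E] E} {ε : E} {L : Submodule E (Module.End E V)}
  {T : Set (V ≃ₗ[E] V)} {τ : V ≃ₗ[E] V} {z : E} {e f : V}

/-- `W x y v = b(y,v) x - ε b(x,v) y` -/
def W (b : V →ₗ[E] V →ₗ[E] E) (ε : E) (x y : V) : Module.End E V :=
  (b y).smulRight x - ε • (b x).smulRight y

theorem W_apply (x y v : V) : W b ε x y v = b y v • x - (ε * b x v) • y := by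
  simp [W, mul_smul]

theorem W_add_left (x x' y : V) : W b ε (x + x') y = W b ε x y + W b ε x' y := by
  ext v
  simp only [W_apply, LinearMap.add_apply, map_add]
  module

theorem W_add_right (x y y' : V) : W b ε x (y + y') = W b ε x y + W b ε x y' := by
  ext v
  simp only [W_apply, LinearMap.add_apply, map_add]
  module

theorem W_smul_left (c : E) (x y : V) : W b ε (c • x) y = c • W b ε x y := by
  ext v
  simp only [W_apply, LinearMap.smul_apply, map_smul, smul_eq_mul]
  module

theorem W_smul_right (c : E) (x y : V) : W b ε x (c • y) = c • W b ε x y := by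
  ext v
  simp only [W_apply, LinearMap.smul_apply, map_smul, smul_eq_mul]
  module

theorem W_zero_right (x : V) : W b ε x 0 = 0 := by
  ext v
  simp [W_apply]

theorem Ctx.W_swap (C : Ctx b ε L T) (x y : V) : W b ε y x = (-ε) • W b ε x y := by
  ext v
  simp only [W_apply, LinearMap.smul_apply]
  have := C.eps2
  have h : (-ε) • (b y v • x - (ε * b x v) • y) =
      ((ε * ε) * b x v) • y - (ε * b y v) • x := by module
  rw [h, this, one_mul]

/-- commutator with a skew map -/
theorem W_comm (X : Module.End E V) (hX : ∀ u v, b (X u) v + b u (X v) = 0) (x y : V) :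
    X * W b ε x y - W b ε x y * X = W b ε (X x) y + W b ε x (X y) := by
  ext v
  simp only [W_apply, LinearMap.sub_apply, LinearMap.add_apply, Module.End.mul_apply, map_sub,
    map_smul]
  have h1 : b y (X v) = - b (X y) v := by linear_combination hX y v
  have h2 : b x (X v) = - b (X x) v := by linear_combination hX x v
  rw [h1, h2]
  module

theorem Ctx.W_skew (C : Ctx b ε L T) (x y u v : V) :
    b (W b ε x y u) v + b u (W b ε x y v) = 0 := by
  simp only [W_apply, map_sub, map_smul, LinearMap.sub_apply, LinearMap.smul_apply, smul_eq_mul]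
  rw [C.symm x u, C.symm y u]
  have := C.eps2
  linear_combination -(b x v * b y u) * this

theorem Ctx.W_conj (C : Ctx b ε L T) (hτ : τ ∈ T) (x y : V) :
    τ.conj (W b ε x y) = W b ε (τ x) (τ y) := by
  ext v
  rw [LinearEquiv.conj_apply_apply, W_apply, W_apply, map_sub, map_smul, map_smul]
  have h1 : ∀ w, b (τ w) v = b w (τ.symm v) := by
    intro w
    rw [← C.iso τ hτ w (τ.symm v), LinearEquiv.apply_symm_apply]
  rw [h1, h1]

/-- if all `W x y` are in `L` then all skew maps are in `L` -/
theorem Ctx.full_of_W [CharZero E] [FiniteDimensional E V] (C : Ctx b ε L T)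
    (h : ∀ x y, W b ε x y ∈ L) {X : Module.End E V} (hX : ∀ u v, b (X u) v + b u (X v) = 0) :
    X ∈ L := by
  classical
  -- dual bases
  let B := Module.finBasis E V
  have hinj : Function.Injective b := by
    rw [← LinearMap.ker_eq_bot, eq_bot_iff]
    intro x hx
    exact C.nondeg x fun y => by
      have : b x = 0 := hx
      rw [this]; rfl
  have hsurj : Function.Surjective b := by
    have := (LinearMap.injective_iff_surjective_of_finrank_eq_finrank
      (f := b) (by rw [Subspace.dual_finrank_eq])).1 hinj
    exact this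
  choose d hd using fun i => hsurj (B.coord i)
  have hv : ∀ v, v = ∑ i, b (d i) v • B i := by
    intro v
    conv_lhs => rw [← B.sum_repr v]
    refine Finset.sum_congr rfl fun i _ => ?_
    rw [hd i]
    rfl
  have hy : ∀ y, y = ∑ i, (ε * b (B i) y) • d i := by
    intro y
    apply hinj
    ext v
    have h1 : b y v = ∑ i, b (d i) v * b y (B i) := by
      conv_lhs => rw [hv v]
      rw [map_sum]
      simp only [map_smul, smul_eq_mul]
    rw [h1, map_sum, LinearMap.sum_apply]
    refine Finset.sum_congr rfl fun i _ => ?_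
    rw [map_smul, LinearMap.smul_apply, smul_eq_mul, C.symm (B i) y]
    ring
  have h2 : (2 : E) • X = ∑ i, W b ε (X (B i)) (d i) := by
    ext v
    rw [LinearMap.sum_apply]
    simp only [W_apply]
    rw [Finset.sum_sub_distrib]
    have h3 : ∑ i, b (d i) v • X (B i) = X v := by
      conv_rhs => rw [hv v]
      rw [map_sum]
      simp only [map_smul]
    have h4 : ∑ i, (ε * b (X (B i)) v) • d i = - X v := by
      conv_rhs => rw [hy (X v)]
      rw [← Finset.sum_neg_distrib]
      refine Finset.sum_congr rfl fun i _ => ?_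
      rw [← neg_smul]
      congr 1
      linear_combination ε * hX (B i) v
    rw [h3, h4, LinearMap.smul_apply, two_smul, sub_neg_eq_add]
  have h5 : X = (2 : E)⁻¹ • ((2 : E) • X) := by
    rw [smul_smul, inv_mul_cancel₀ (two_ne_zero), one_smul]
  rw [h5, h2]
  exact L.smul_mem _ (L.sum_mem fun i _ => h _ _)

end Pool.Agent.MPB
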